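import Pool.Agent.LibGWa.U8

/-!
# BE35 stage 2, part F2: from dyadic blocks to all times and windows. Definitions

`st lev a L τ` = linear statistic (LibGWa/U3), `tf a` = test function (LibFG33/Defs),
`vg a` = variance (LibGWa/Vdefs), `gaussMom` (LibMes/FDefs).
-/

open MeasureTheory Set Filter Topology
open scoped ContDiff

namespace FB23

open FG33 GWin Mes

/-- the weighted norm `∫ |f(y)| (1 + |y|)^M dy` of the test function `f` of the amplitude `b` -/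
noncomputable def W (M : ℕ) (b : ℝ → ℂ) : ℝ := ∫ y, |tf b y| * (1 + |y|) ^ M

/-- the rescaled amplitude `a(t / s) / s` -/
noncomputable def sca (s : ℝ) (a : ℝ → ℂ) (t : ℝ) : ℂ := ((s⁻¹ : ℝ) : ℂ) * a (t / s)

/-- `a` vanishes outside `[-R, R]` -/
def Sup (R : ℝ) (a : ℝ → ℂ) : Prop := ∀ t, R < |t| → a t = 0

/-- The moments of the statistics of one amplitude over the blocks; `κ k` is the bound of the
(dyadic) window parameter in the block `2 ^ k`. -/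
def BA (lev κ : ℕ → ℝ) (a : ℝ → ℂ) : Prop :=
  ∀ (r : ℕ) (u v : ℚ), 0 < u → u < v → ∀ ε : ℝ, 0 < ε → ∃ (Λ : ℝ) (k0 : ℕ), ∀ k ≥ k0,
    ∀ i : ℕ, Λ ≤ 2 ^ i → (2 : ℝ) ^ i ≤ κ k →
      |1 / (((v : ℝ) - u) * 2 ^ k) * (∫ τ in ((u : ℝ) * 2 ^ k)..((v : ℝ) * 2 ^ k),
        st lev a (2 ^ i) τ ^ r) - gaussMom (vg a) r| ≤ ε

/-- Uniform bound of the even moments over the blocks, for all amplitudes with support in
`[-R, R]`. -/
def UB (lev κ : ℕ → ℝ) (R : ℝ) : Prop :=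
  ∀ r : ℕ, 1 ≤ r → ∀ u v : ℚ, 0 < u → u < v → ∃ (C Λ : ℝ) (k0 : ℕ), 0 ≤ C ∧ ∀ k ≥ k0,
    ∀ i : ℕ, Λ ≤ 2 ^ i → (2 : ℝ) ^ i ≤ κ k → ∀ b : ℝ → ℂ, IsAmp b → Sup R b →
      1 / 2 ^ k * (∫ τ in ((u : ℝ) * 2 ^ k)..((v : ℝ) * 2 ^ k), st lev b (2 ^ i) τ ^ (2 * r)) ≤
        C * W (8 * r) b ^ (2 * r)

/-- A countable family of amplitudes, dense in a strong sense. -/
structure Dense (A : ℕ → ℝ → ℂ) : Prop where
  amp : ∀ j, IsAmp (A j)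
  cut : ∀ R : ℕ, ∃ j, ∀ t : ℝ, |t| ≤ R → A j t = 1
  dense : ∀ (R M : ℕ) (a : ℝ → ℂ), IsAmp a → Sup R a → ∀ ε : ℝ, 0 < ε →
    ∃ j, Sup R (A j) ∧ W M (a - A j) < ε

end FB23
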