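import Mathlib

/-!
# Row R11: Jensen over a block (MEDIUM, 40 min; ONLY MATHLIB)

`(∫ w g_τ)^(2r) ≤ (∫ |w|)^(2r-1) ∫ |w| g_τ^(2r)` (Hölder: `integral_mul_le_Lp_mul_Lq_of_nonneg` with
`|w|^(1/q) · |w|^(1/p) |g|`, or Jensen `ConvexOn.map_integral_le` for the probability measure
`|w| / ∫ |w|`; if `∫ |w| = 0` then `w = 0` a.e.), then integrate over `τ ∈ [α, β]` and Fubini
(`intervalIntegral_integral_swap` / `integral_integral_swap`); `g` is jointly continuous and
`|g (y, τ)| ≤ C (1 + |y|)^4` on the block, so `|w| g^(2r)` is integrable on `ℝ × [α, β]` by `hw`.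
-/

open MeasureTheory Set Filter Topology

namespace FB23

private theorem R11_tangent {s t : ℝ} (hs : 0 ≤ s) (ht : 0 ≤ t) {n : ℕ} (hn : 2 ≤ n) :
    s ^ n + n * s ^ (n - 1) * (t - s) ≤ t ^ n := by
  obtain ⟨m, rfl⟩ : ∃ m, n = m + 1 := ⟨n - 1, by omega⟩
  rw [Nat.add_sub_cancel]
  rcases hs.eq_or_lt with h | h
  · subst h
    rw [zero_pow (by omega), zero_pow (by omega), mul_zero, zero_mul, zero_add]
    positivity
  · have h1 : -2 ≤ (t - s) / s := by
      rw [le_div_iff₀ h]
      linarith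
    have h2 := one_add_mul_le_pow h1 (m + 1)
    have h3 : 1 + (t - s) / s = t / s := by
      field_simp
      ring
    rw [h3, div_pow, le_div_iff₀ (by positivity)] at h2
    refine le_trans (le_of_eq ?_) h2
    rw [pow_succ]
    field_simp

private theorem R11_pt {w f : ℝ → ℝ} (hwi : Integrable fun y => |w y|) {n : ℕ} (hn : 2 ≤ n)
    (h1 : Integrable fun y => |w y| * |f y|) (h2 : Integrable fun y => |w y| * |f y| ^ n) :
    (∫ y, |w y| * |f y|) ^ n ≤ (∫ y, |w y|) ^ (n - 1) * ∫ y, |w y| * |f y| ^ n := by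
  set W := ∫ y, |w y| with hW
  set A := ∫ y, |w y| * |f y| with hA
  set B := ∫ y, |w y| * |f y| ^ n with hB
  have hW0 : 0 ≤ W := integral_nonneg fun y => abs_nonneg _
  have hA0 : 0 ≤ A := integral_nonneg fun y => by positivity
  have hB0 : 0 ≤ B := integral_nonneg fun y => by positivity
  rcases hW0.eq_or_lt with h | h
  · have h3 : (fun y => |w y|) =ᵐ[volume] 0 :=
      (integral_eq_zero_iff_of_nonneg (fun y => abs_nonneg _) hwi).1 h.symm
    have h4 : A = 0 := by
      rw [hA]
      refine integral_eq_zero_of_ae ?_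
      filter_upwards [h3] with y hy
      have : |w y| = 0 := hy
      rw [this, zero_mul]
      rfl
    rw [h4, zero_pow (by omega)]
    positivity
  · set s := A / W with hs
    have hs0 : 0 ≤ s := div_nonneg hA0 hW0
    have h3 : s ^ n * W + n * s ^ (n - 1) * (A - s * W) ≤ B := by
      have h4 : ∫ y, ((s ^ n - n * s ^ (n - 1) * s) * |w y| + n * s ^ (n - 1) * (|w y| * |f y|)) =
          s ^ n * W + n * s ^ (n - 1) * (A - s * W) := by
        rw [integral_add (hwi.const_mul _) (h1.const_mul _), integral_const_mul,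
          integral_const_mul]
        ring
      rw [← h4]
      refine integral_mono ((hwi.const_mul _).add (h1.const_mul _)) h2 fun y => ?_
      have h5 := mul_le_mul_of_nonneg_left (R11_tangent hs0 (abs_nonneg (f y)) hn)
        (abs_nonneg (w y))
      refine le_trans (le_of_eq ?_) h5
      show (s ^ n - n * s ^ (n - 1) * s) * |w y| + n * s ^ (n - 1) * (|w y| * |f y|) = _
      ring
    have h4 : A = s * W := by
      rw [hs]
      field_simp
    rw [← h4, sub_self, mul_zero, add_zero] at h3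
    calc A ^ n = W ^ (n - 1) * (s ^ n * W) := by
          rw [h4, mul_pow]
          obtain ⟨m, rfl⟩ : ∃ m, n = m + 1 := ⟨n - 1, by omega⟩
          rw [Nat.add_sub_cancel]
          ring
      _ ≤ W ^ (n - 1) * B := mul_le_mul_of_nonneg_left h3 (by positivity)

theorem jensen {w : ℝ → ℝ} (hwc : Continuous w) {r : ℕ} (hr : 1 ≤ r)
    (hw : ∀ M : ℕ, Integrable fun y => |w y| * (1 + |y|) ^ M) {g : ℝ × ℝ → ℝ} (hg : Continuous g)
    {α β C : ℝ} (hαβ : α ≤ β) (hC : ∀ y, ∀ τ ∈ Icc α β, |g (y, τ)| ≤ C * (1 + |y|) ^ 4) :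
    (∫ τ in α..β, (∫ y, w y * g (y, τ)) ^ (2 * r)) ≤
      (∫ y, |w y|) ^ (2 * r - 1) * ∫ y, |w y| * ∫ τ in α..β, g (y, τ) ^ (2 * r) := by
  have hwi : Integrable fun y => |w y| := by
    have := hw 0
    simpa using this
  have hC0 : 0 ≤ C := by
    have h1 := hC 0 α ⟨le_refl _, hαβ⟩
    rw [abs_zero, add_zero, one_pow, mul_one] at h1
    exact (abs_nonneg _).trans h1
  have hbd : ∀ n : ℕ, ∀ y, ∀ τ ∈ Icc α β, |w y| * |g (y, τ)| ^ n ≤
      C ^ n * (|w y| * (1 + |y|) ^ (4 * n)) := by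
    intro n y τ hτ
    have h1 := pow_le_pow_left₀ (abs_nonneg _) (hC y τ hτ) n
    rw [mul_pow, ← pow_mul] at h1
    calc |w y| * |g (y, τ)| ^ n ≤ |w y| * (C ^ n * (1 + |y|) ^ (4 * n)) :=
          mul_le_mul_of_nonneg_left h1 (abs_nonneg _)
      _ = _ := by ring
  have hint : ∀ n : ℕ, ∀ τ ∈ Icc α β, Integrable fun y => |w y| * |g (y, τ)| ^ n := by
    intro n τ hτ
    refine ((hw (4 * n)).const_mul (C ^ n)).mono' ?_ ?_
    · have : Continuous fun y => |w y| * |g (y, τ)| ^ n := by fun_prop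
      exact this.aestronglyMeasurable
    · refine Eventually.of_forall fun y => ?_
      rw [Real.norm_eq_abs, abs_of_nonneg (by positivity)]
      exact hbd n y τ hτ
  have hpt : ∀ τ ∈ Icc α β, (∫ y, w y * g (y, τ)) ^ (2 * r) ≤
      (∫ y, |w y|) ^ (2 * r - 1) * ∫ y, |w y| * g (y, τ) ^ (2 * r) := by
    intro τ hτ
    have h1 := R11_pt (w := w) (f := fun y => g (y, τ)) hwi (n := 2 * r) (by omega)
      (by simpa using hint 1 τ hτ) (hint (2 * r) τ hτ)
    have h2 : |∫ y, w y * g (y, τ)| ≤ ∫ y, |w y| * |g (y, τ)| := by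
      have h3 := norm_integral_le_integral_norm (μ := volume) fun y => w y * g (y, τ)
      simp only [Real.norm_eq_abs, abs_mul] at h3
      exact h3
    have h3 : (∫ y, w y * g (y, τ)) ^ (2 * r) ≤ (∫ y, |w y| * |g (y, τ)|) ^ (2 * r) := by
      rw [← Even.pow_abs (even_two_mul r) (∫ y, w y * g (y, τ))]
      exact pow_le_pow_left₀ (abs_nonneg _) h2 _
    refine (h3.trans h1).trans (le_of_eq ?_)
    congr 1
    refine integral_congr_ae (Eventually.of_forall fun y => ?_)
    show |w y| * |g (y, τ)| ^ (2 * r) = |w y| * g (y, τ) ^ (2 * r)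
    rw [Even.pow_abs (even_two_mul r)]
  -- product integrability
  have hprod : Integrable (Function.uncurry fun (τ : ℝ) (y : ℝ) => |w y| * g (y, τ) ^ (2 * r))
      ((volume.restrict (Ioc α β)).prod volume) := by
    have h1 : Integrable (fun p : ℝ × ℝ => (1 : ℝ) *
        (C ^ (2 * r) * (|w p.2| * (1 + |p.2|) ^ (4 * (2 * r)))))
        ((volume.restrict (Ioc α β)).prod volume) :=
      Integrable.mul_prod (f := fun _ : ℝ => (1 : ℝ))
        (g := fun y => C ^ (2 * r) * (|w y| * (1 + |y|) ^ (4 * (2 * r))))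
        (integrable_const _) ((hw (4 * (2 * r))).const_mul _)
    refine h1.mono' ?_ ?_
    · have : Continuous (Function.uncurry fun (τ : ℝ) (y : ℝ) => |w y| * g (y, τ) ^ (2 * r)) := by
        unfold Function.uncurry
        fun_prop
      exact this.aestronglyMeasurable
    · have h2 : ∀ᵐ p : ℝ × ℝ ∂((volume.restrict (Ioc α β)).prod volume), p.1 ∈ Ioc α β := by
        have h3 : ∀ᵐ τ ∂(volume.restrict (Ioc α β)), τ ∈ Ioc α β :=
          ae_restrict_mem measurableSet_Ioc
        exact (Measure.quasiMeasurePreserving_fst).ae h3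
      filter_upwards [h2] with p hp
      rw [one_mul]
      show ‖|w p.2| * g (p.2, p.1) ^ (2 * r)‖ ≤ _
      rw [Real.norm_eq_abs, abs_mul, abs_abs, abs_pow]
      exact hbd (2 * r) p.2 p.1 (Ioc_subset_Icc_self hp)
  have hswap := integral_integral_swap hprod
  rw [intervalIntegral.integral_of_le hαβ]
  have h1 : ∫ τ in Ioc α β, (∫ y, w y * g (y, τ)) ^ (2 * r) ≤
      ∫ τ in Ioc α β, (∫ y, |w y|) ^ (2 * r - 1) * ∫ y, |w y| * g (y, τ) ^ (2 * r) := by
    refine integral_mono_of_nonneg ?_ (hprod.integral_prod_left.const_mul _) ?_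
    · refine Eventually.of_forall fun τ => ?_
      exact Even.pow_nonneg (even_two_mul r) _
    · refine (ae_restrict_iff' measurableSet_Ioc).2 (Eventually.of_forall fun τ hτ => ?_)
      exact hpt τ (Ioc_subset_Icc_self hτ)
  refine h1.trans (le_of_eq ?_)
  rw [integral_const_mul, hswap]
  congr 1
  refine integral_congr_ae (Eventually.of_forall fun y => ?_)
  show ∫ τ in Ioc α β, |w y| * g (y, τ) ^ (2 * r) = |w y| * ∫ τ in α..β, g (y, τ) ^ (2 * r)
  rw [integral_const_mul, intervalIntegral.integral_of_le hαβ]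

end FB23
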