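import Pool.Agent.LibFB23.R6

/-!
# Row R8: the convolution identity (MEDIUM, 35 min)

`b = χ b`.  `tf χ (x - y) = ∫ χ(s) e^{i s (x - y)} ds` (`GWin.tf_real`), Fubini
(`integral_integral_swap`; the integrand `tf b y * χ s * ...` is dominated by `|tf b y| ‖χ s‖`),
inversion `∫ tf b y e^{-i s y} dy = 2 π b(s)` (R6), and `χ(s) b(s) = b(s)`.  Everything in `ℂ`, at the end
`Complex.ofReal_injective`.
-/

open MeasureTheory Set Filter Topology
open scoped ContDiff

namespace FB23

open FG33 GWin Mes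

private theorem R8_norm (s u : ℝ) : ‖Complex.exp (Complex.I * (s * u : ℝ))‖ = 1 := by
  rw [mul_comm]
  exact Complex.norm_exp_ofReal_mul_I _

private theorem R8_int {b χ : ℝ → ℂ} (hb : IsAmp b) (hχ : IsAmp χ) (x : ℝ) :
    Integrable (Function.uncurry fun y s : ℝ =>
      ((tf b y : ℝ) : ℂ) * (χ s * Complex.exp (Complex.I * (s * (x - y) : ℝ))))
      (volume.prod volume) := by
  have h1 : Integrable (fun z : ℝ × ℝ => ((tf b z.1 : ℝ) : ℂ) * χ z.2) (volume.prod volume) :=
    (tf_int hb).ofReal.mul_prod (hχ.smooth.continuous.integrable_of_hasCompactSupport hχ.supp)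
  refine h1.mono ?_ (Eventually.of_forall fun z => ?_)
  · apply Continuous.aestronglyMeasurable
    have c1 : Continuous fun z : ℝ × ℝ => tf b z.1 := (tf_cont hb).comp continuous_fst
    have c2 : Continuous fun z : ℝ × ℝ => χ z.2 := hχ.smooth.continuous.comp continuous_snd
    have c3 : Continuous fun z : ℝ × ℝ => Complex.exp (Complex.I * (z.2 * (x - z.1) : ℝ)) := by
      fun_prop
    exact (Complex.continuous_ofReal.comp c1).mul (c2.mul c3)
  · show ‖((tf b z.1 : ℝ) : ℂ) * (χ z.2 * Complex.exp (Complex.I * (z.2 * (x - z.1) : ℝ)))‖ ≤ _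
    rw [norm_mul, norm_mul, R8_norm, mul_one, norm_mul]

theorem conv {b χ : ℝ → ℂ} (hb : IsAmp b) (hχ : IsAmp χ) {R : ℝ} (hR : Sup R b)
    (h1 : ∀ t, |t| ≤ R → χ t = 1) (x : ℝ) :
    ∫ y, tf b y * tf χ (x - y) = 2 * Real.pi * tf b x := by
  apply Complex.ofReal_injective
  rw [← integral_complex_ofReal]
  have e1 : ∀ y : ℝ, ((tf b y * tf χ (x - y) : ℝ) : ℂ) =
      ∫ s, ((tf b y : ℝ) : ℂ) * (χ s * Complex.exp (Complex.I * (s * (x - y) : ℝ))) := by
    intro y
    rw [integral_const_mul, tf_real hχ, Complex.ofReal_mul]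
  have e2 : ∀ s : ℝ, (∫ y, ((tf b y : ℝ) : ℂ) *
      (χ s * Complex.exp (Complex.I * (s * (x - y) : ℝ)))) =
      2 * Real.pi * (b s * Complex.exp (Complex.I * (s * x : ℝ))) := by
    intro s
    have e3 : ∀ y : ℝ, ((tf b y : ℝ) : ℂ) * (χ s * Complex.exp (Complex.I * (s * (x - y) : ℝ))) =
        (χ s * Complex.exp (Complex.I * (s * x : ℝ))) *
          (((tf b y : ℝ) : ℂ) * Complex.exp (-(Complex.I * (s * y : ℝ)))) := by
      intro y
      have e4 : Complex.exp (Complex.I * (s * (x - y) : ℝ)) =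
          Complex.exp (Complex.I * (s * x : ℝ)) * Complex.exp (-(Complex.I * (s * y : ℝ))) := by
        rw [← Complex.exp_add]
        congr 1
        push_cast
        ring
      rw [e4]
      ring
    rw [integral_congr_ae (Eventually.of_forall e3), integral_const_mul, inv hb]
    have e5 : χ s * b s = b s := by
      by_cases hs : |s| ≤ R
      · rw [h1 s hs, one_mul]
      · rw [hR s (not_le.1 hs), mul_zero]
    calc χ s * Complex.exp (Complex.I * (s * x : ℝ)) * (2 * Real.pi * b s)
        = 2 * Real.pi * ((χ s * b s) * Complex.exp (Complex.I * (s * x : ℝ))) := by ring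
      _ = _ := by rw [e5]
  rw [integral_congr_ae (Eventually.of_forall e1), integral_integral_swap (R8_int hb hχ x),
    integral_congr_ae (Eventually.of_forall e2), integral_const_mul, tf_real hb]
  push_cast
  rfl

end FB23
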