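import Pool.Agent.LibFB23.R4
import Pool.Agent.LibFB23.R8

/-!
# Row R9: the statistic of `b` in terms of the statistic of the cut-off (MEDIUM, 45 min)

By R8 with `x = L (lev k - τ)`: `2 π tf b (L (lev k - τ)) = ∫ tf b y tf χ (L (lev k - (τ + y / L))) dy`.
Sum over `k`: interchange (`integral_tsum` or `hasSum_integral_of_summable_integral_norm`); by
`GWin.term_bound` (LibGWa/U3) `|tf χ (L (lev k - (τ + y / L)))| ≤
B ((1 + |τ + y / L|) / min 1 L)^4 / (lev k + 1)^4`, and `|tf b y| (1 + |y|)^4` is integrable (R4).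
`∫ tf b = (1/(2π)) (∫ tf b) (∫ tf χ)` because `∫ tf χ = 2 π χ(0) = 2 π` (R6 `int_tf`; if `R < 0` then
`b = 0`; so `0 ≤ R` may be assumed: it is a hypothesis).
-/

open MeasureTheory Set Filter Topology
open scoped ContDiff

namespace FB23

open FG33 GWin Mes

theorem st_conv {b χ : ℝ → ℂ} (hb : IsAmp b) (hχ : IsAmp χ) {R : ℝ} (hR0 : 0 ≤ R) (hR : Sup R b)
    (h1 : ∀ t, |t| ≤ R → χ t = 1) {lev : ℕ → ℝ} (hl : Lev lev) {L : ℝ} (hL : 1 ≤ L) (τ : ℝ) :
    Integrable (fun y => tf b y * (st lev χ L (τ + y / L) + y / L ^ 2)) ∧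
    2 * Real.pi * st lev b L τ =
      ∫ y, tf b y * (st lev χ L (τ + y / L) + y / L ^ 2) := by
  have hL0 : 0 < L := by linarith
  have hLne : L ≠ 0 := hL0.ne'
  have hpi := Real.pi_pos
  have hmin : min 1 L = 1 := min_eq_left hL
  obtain ⟨B, hB, hbd⟩ := tf_decay hχ
  have hIχ : ∫ y, tf χ y = 2 * Real.pi := by
    rw [int_tf hχ, h1 0 (by simpa using hR0)]
    simp
  have harg : ∀ (k : ℕ) (y : ℝ), L * (lev k - (τ + y / L)) = L * (lev k - τ) - y := by
    intro k y
    field_simp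
    ring
  -- the terms
  have hT : ∀ (k : ℕ) (y : ℝ), |tf χ (L * (lev k - τ) - y)| ≤
      B * (1 + |τ|) ^ 4 * (1 + |y|) ^ 4 * (1 / (lev k + 1) ^ 4) := by
    intro k y
    have h := term_bound hB hbd hl hL0 (τ + y / L) k
    rw [hmin, div_one, harg] at h
    refine h.trans ?_
    have h2 : 1 + |τ + y / L| ≤ (1 + |τ|) * (1 + |y|) := by
      have h3 : |y / L| ≤ |y| := by
        rw [abs_div, abs_of_pos hL0]
        exact div_le_self (abs_nonneg _) hL
      have h4 := abs_add_le τ (y / L)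
      have h5 := abs_nonneg τ
      have h6 := abs_nonneg y
      nlinarith [mul_nonneg h5 h6]
    have h3 := hl.nn k
    have h4 : (1 + |τ + y / L|) ^ 4 ≤ (1 + |τ|) ^ 4 * (1 + |y|) ^ 4 := by
      rw [← mul_pow]
      exact pow_le_pow_left₀ (by positivity) h2 4
    calc B * (1 + |τ + y / L|) ^ 4 * (1 / (lev k + 1) ^ 4)
        ≤ B * ((1 + |τ|) ^ 4 * (1 + |y|) ^ 4) * (1 / (lev k + 1) ^ 4) := by gcongr
      _ = _ := by ring
  have hsum : ∀ y : ℝ, Summable fun k => tf χ (L * (lev k - τ) - y) := fun y =>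
    Summable.of_norm_bounded ((zsum hl).mul_left (B * (1 + |τ|) ^ 4 * (1 + |y|) ^ 4))
      fun k => hT k y
  have hTs : ∀ y : ℝ, st lev χ L (τ + y / L) + y / L ^ 2 =
      (∑' k, tf χ (L * (lev k - τ) - y)) - τ / L := by
    intro y
    unfold st
    rw [hIχ]
    simp only [harg]
    field_simp
    ring
  have hcb := tf_cont hb
  have hcχ := tf_cont hχ
  have hW := W_int hb 4
  have hb0 : Integrable (tf b) := by
    refine Integrable.mono hW hcb.aestronglyMeasurable (Eventually.of_forall fun y => ?_)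
    rw [Real.norm_eq_abs, Real.norm_of_nonneg (by positivity)]
    have h6 := abs_nonneg y
    exact le_mul_of_one_le_right (abs_nonneg _) (one_le_pow₀ (by linarith))
  have hF : ∀ k : ℕ, Integrable fun y => tf b y * tf χ (L * (lev k - τ) - y) := by
    intro k
    refine Integrable.mono (hW.mul_const (B * (1 + |τ|) ^ 4 * (1 / (lev k + 1) ^ 4)))
      (by fun_prop) (Eventually.of_forall fun y => ?_)
    have h3 := hl.nn k
    rw [norm_mul, Real.norm_eq_abs, Real.norm_eq_abs, Real.norm_of_nonneg (by positivity)]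
    calc |tf b y| * |tf χ (L * (lev k - τ) - y)| ≤ |tf b y| * (B * (1 + |τ|) ^ 4 *
        (1 + |y|) ^ 4 * (1 / (lev k + 1) ^ 4)) := by
          exact mul_le_mul_of_nonneg_left (hT k y) (abs_nonneg _)
      _ = _ := by ring
  have hFn : ∀ k : ℕ, ∫ y, ‖tf b y * tf χ (L * (lev k - τ) - y)‖ ≤
      W 4 b * (B * (1 + |τ|) ^ 4) * (1 / (lev k + 1) ^ 4) := by
    intro k
    have h3 := hl.nn k
    have h4 : W 4 b * (B * (1 + |τ|) ^ 4) * (1 / (lev k + 1) ^ 4) =
        ∫ y, |tf b y| * (1 + |y|) ^ 4 * (B * (1 + |τ|) ^ 4 * (1 / (lev k + 1) ^ 4)) := by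
      rw [integral_mul_const]
      unfold W
      ring
    rw [h4]
    refine integral_mono (hF k).norm (hW.mul_const _) fun y => ?_
    simp only [norm_mul, Real.norm_eq_abs]
    calc |tf b y| * |tf χ (L * (lev k - τ) - y)| ≤ |tf b y| * (B * (1 + |τ|) ^ 4 *
        (1 + |y|) ^ 4 * (1 / (lev k + 1) ^ 4)) := by
          exact mul_le_mul_of_nonneg_left (hT k y) (abs_nonneg _)
      _ = _ := by ring
  have hFs : Summable fun k : ℕ => ∫ y, ‖tf b y * tf χ (L * (lev k - τ) - y)‖ :=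
    Summable.of_nonneg_of_le (fun k => integral_nonneg fun y => norm_nonneg _) hFn
      ((zsum hl).mul_left _)
  have hHS := hasSum_integral_of_summable_integral_norm hF hFs
  have hconv : ∀ k : ℕ, ∫ y, tf b y * tf χ (L * (lev k - τ) - y) =
      2 * Real.pi * tf b (L * (lev k - τ)) := fun k => conv hb hχ hR h1 _
  have hG : ∫ y, tf b y * (∑' k, tf χ (L * (lev k - τ) - y)) =
      2 * Real.pi * ∑' k, tf b (L * (lev k - τ)) := by
    have e1 : (fun y => tf b y * (∑' k, tf χ (L * (lev k - τ) - y))) =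
        fun y => ∑' k, tf b y * tf χ (L * (lev k - τ) - y) := by
      funext y
      rw [tsum_mul_left]
    rw [e1, ← hHS.tsum_eq, ← tsum_mul_left]
    exact tsum_congr hconv
  have hstc := st_cont hχ hl hL0
  have hGc : Continuous fun y => (∑' k, tf χ (L * (lev k - τ) - y)) := by
    have e1 : (fun y => (∑' k, tf χ (L * (lev k - τ) - y))) =
        fun y => st lev χ L (τ + y / L) + y / L ^ 2 + τ / L := by
      funext y
      rw [hTs y]
      ring
    rw [e1]
    have : Continuous fun y => st lev χ L (τ + y / L) := hstc.comp (by fun_prop)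
    fun_prop
  have hGi : Integrable fun y => tf b y * (∑' k, tf χ (L * (lev k - τ) - y)) := by
    refine Integrable.mono (hW.mul_const (B * (1 + |τ|) ^ 4 * (∑' k, 1 / (lev k + 1) ^ 4)))
      (hcb.mul hGc).aestronglyMeasurable (Eventually.of_forall fun y => ?_)
    have hZ : 0 ≤ ∑' n, 1 / (lev n + 1) ^ 4 := tsum_nonneg fun n => by
      have := hl.nn n
      positivity
    have h2 : ‖∑' k, tf χ (L * (lev k - τ) - y)‖ ≤
        ∑' k, B * (1 + |τ|) ^ 4 * (1 + |y|) ^ 4 * (1 / (lev k + 1) ^ 4) :=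
      tsum_of_norm_bounded ((zsum hl).mul_left
        (B * (1 + |τ|) ^ 4 * (1 + |y|) ^ 4)).hasSum fun k => hT k y
    rw [tsum_mul_left] at h2
    rw [norm_mul, Real.norm_eq_abs, Real.norm_of_nonneg (by positivity : 0 ≤ |tf b y| *
      (1 + |y|) ^ 4 * (B * (1 + |τ|) ^ 4 * (∑' k, 1 / (lev k + 1) ^ 4)))]
    calc |tf b y| * ‖∑' k, tf χ (L * (lev k - τ) - y)‖ ≤ |tf b y| * (B * (1 + |τ|) ^ 4 *
        (1 + |y|) ^ 4 * (∑' k, 1 / (lev k + 1) ^ 4)) :=
          mul_le_mul_of_nonneg_left h2 (abs_nonneg _)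
      _ = _ := by ring
  have e2 : (fun y => tf b y * (st lev χ L (τ + y / L) + y / L ^ 2)) =
      fun y => tf b y * (∑' k, tf χ (L * (lev k - τ) - y)) - tf b y * (τ / L) := by
    funext y
    rw [hTs y]
    ring
  rw [e2]
  refine ⟨hGi.sub (hb0.mul_const _), ?_⟩
  rw [integral_sub hGi (hb0.mul_const _), hG, integral_mul_const]
  unfold st
  field_simp

end FB23
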