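import Pool.Agent.LibFB23.R12a
import Pool.Agent.LibFB23.R11
import Pool.Agent.LibFB23.R9

/-!
# Row R12: the uniform bound

`g (y, τ) = st lev χ L (τ + y / L) + y / L^2`, `w = tf b`.  R9: `2 π st lev b L τ = ∫ w g`.  R11 (`jensen`, with
the bound `|g| ≤ C (1 + |y|)^4` from R10 `crude` on the block; this `C` depends on the block, harmless).
`g^(2r) ≤ 2^(2r) (st^(2r) + y^(2r))`, so by R12a
`(1/2^k) ∫ g^(2r) dτ ≤ 2^(2r) (C (1 + |y|)^(8r) + (v - u) |y|^(2r)) ≤ C' (1 + |y|)^(8r)`; then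
`(1/2^k) ∫ (2 π st b)^(2r) ≤ (∫|w|)^(2r-1) ∫ |w| C' (1 + |y|)^(8r) ≤ C' W (8r) b ^ (2r)` (R4 `W_mono`).
-/

open MeasureTheory Set Filter Topology
open scoped ContDiff

namespace FB23

open FG33 GWin Mes

theorem add_pow_even (x y : ℝ) (r : ℕ) :
    (x + y) ^ (2 * r) ≤ 2 ^ (2 * r) * (x ^ (2 * r) + y ^ (2 * r)) := by
  have e1 : ∀ z : ℝ, z ^ (2 * r) = |z| ^ (2 * r) := fun z => (Even.pow_abs ⟨r, by ring⟩ z).symm
  have h1 : |x + y| ≤ 2 * max |x| |y| := by
    have := abs_add_le x y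
    have h2 := le_max_left |x| |y|
    have h3 := le_max_right |x| |y|
    linarith
  have h2 : (max |x| |y|) ^ (2 * r) ≤ |x| ^ (2 * r) + |y| ^ (2 * r) := by
    rcases max_choice |x| |y| with h | h
    · rw [h]
      have : 0 ≤ |y| ^ (2 * r) := by positivity
      linarith
    · rw [h]
      have : 0 ≤ |x| ^ (2 * r) := by positivity
      linarith
  rw [e1 (x + y), e1 x, e1 y]
  calc |x + y| ^ (2 * r) ≤ (2 * max |x| |y|) ^ (2 * r) := pow_le_pow_left₀ (abs_nonneg _) h1 _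
    _ = 2 ^ (2 * r) * (max |x| |y|) ^ (2 * r) := mul_pow _ _ _
    _ ≤ 2 ^ (2 * r) * (|x| ^ (2 * r) + |y| ^ (2 * r)) :=
        mul_le_mul_of_nonneg_left h2 (by positivity)

theorem ub {lev κ : ℕ → ℝ} {χ : ℝ → ℂ} {R : ℝ} (hR0 : 0 ≤ R) (hl : Lev lev) (hχ : IsAmp χ)
    (h1 : ∀ t, |t| ≤ R → χ t = 1) (hB : BA lev κ χ) : UB lev κ R := by
  intro r hr u v hu huv
  obtain ⟨C1, Λ, k0, hC1, hm⟩ := mom_shift hl hχ hB r hu huv
  have huv' : (u : ℝ) < v := by exact_mod_cast huv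
  have hu' : (0 : ℝ) < u := by exact_mod_cast hu
  obtain ⟨C2, hC2⟩ : ∃ C2 : ℝ, C2 = 2 ^ (2 * r) * (C1 + ((v : ℝ) - u)) := ⟨_, rfl⟩
  have hC20 : 0 ≤ C2 := by
    rw [hC2]
    exact mul_nonneg (by positivity) (by linarith)
  refine ⟨C2 / (2 * Real.pi) ^ (2 * r), Λ, k0, by positivity, ?_⟩
  intro k hk i hi hik b hb hRb
  obtain ⟨L, hL⟩ : ∃ L : ℝ, L = 2 ^ i := ⟨_, rfl⟩
  have hm' := hm k hk i hi hik
  rw [← hL] at hm' ⊢
  have hL1 : 1 ≤ L := by rw [hL]; exact one_le_pow₀ (by norm_num)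
  have hL0 : 0 < L := by linarith
  obtain ⟨P, hP⟩ : ∃ P : ℝ, P = 2 ^ k := ⟨_, rfl⟩
  rw [← hP] at hm' ⊢
  have hP0 : 0 < P := by rw [hP]; positivity
  have hαβ : (u : ℝ) * P ≤ v * P := mul_le_mul_of_nonneg_right huv'.le hP0.le
  obtain ⟨g, hg⟩ : ∃ g : ℝ × ℝ → ℝ, g = fun p => st lev χ L (p.2 + p.1 / L) + p.1 / L ^ 2 :=
    ⟨_, rfl⟩
  have hgc : Continuous g := by
    rw [hg]
    exact (st_shift_cont hχ hl hL0).add (by fun_prop)
  obtain ⟨Cc, hCc, hcr⟩ := crude hχ hl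
  have hyL : ∀ y : ℝ, |y / L| ≤ |y| := by
    intro y
    rw [abs_div, abs_of_pos hL0]
    exact div_le_self (abs_nonneg _) hL1
  have hyL2 : ∀ y : ℝ, |y / L ^ 2| ≤ |y| := by
    intro y
    rw [abs_div, abs_of_pos (by positivity : (0 : ℝ) < L ^ 2)]
    exact div_le_self (abs_nonneg _) (one_le_pow₀ hL1)
  have hbd : ∀ y, ∀ τ ∈ Icc ((u : ℝ) * P) (v * P),
      |g (y, τ)| ≤ (Cc * (1 + v * P) ^ 4 + 1) * (1 + |y|) ^ 4 := by
    intro y τ hτ
    have hτ0 : 0 ≤ τ := le_trans (by positivity) hτ.1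
    have h2 : 1 + |τ + y / L| ≤ (1 + v * P) * (1 + |y|) := by
      have h3 := abs_add_le τ (y / L)
      have h4 := hyL y
      have h5 : |τ| ≤ v * P := by rw [abs_of_nonneg hτ0]; exact hτ.2
      have h6 : 0 ≤ (v * P) * |y| := by
        have : 0 ≤ v * P := le_trans (abs_nonneg τ) h5
        positivity
      nlinarith
    have h7 : |y / L ^ 2| ≤ 1 * (1 + |y|) ^ 4 := by
      have h8 := hyL2 y
      have h9 : |y| ≤ 1 + |y| := by linarith
      have h10 : (1 + |y|) ^ 1 ≤ (1 + |y|) ^ 4 :=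
        pow_le_pow_right₀ (by have := abs_nonneg y; linarith) (by norm_num)
      rw [pow_one] at h10
      linarith
    have h11 : |st lev χ L (τ + y / L)| ≤ Cc * (1 + v * P) ^ 4 * (1 + |y|) ^ 4 := by
      refine (hcr L (τ + y / L) hL1).trans ?_
      calc Cc * (1 + |τ + y / L|) ^ 4 ≤ Cc * ((1 + v * P) * (1 + |y|)) ^ 4 :=
            mul_le_mul_of_nonneg_left (pow_le_pow_left₀ (by positivity) h2 4) hCc
        _ = Cc * (1 + v * P) ^ 4 * (1 + |y|) ^ 4 := by rw [mul_pow]; ring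
    rw [hg]
    simp only
    calc |st lev χ L (τ + y / L) + y / L ^ 2| ≤ |st lev χ L (τ + y / L)| + |y / L ^ 2| :=
          abs_add_le _ _
      _ ≤ Cc * (1 + v * P) ^ 4 * (1 + |y|) ^ 4 + 1 * (1 + |y|) ^ 4 := add_le_add h11 h7
      _ = (Cc * (1 + v * P) ^ 4 + 1) * (1 + |y|) ^ 4 := by ring
  have hJ := jensen (w := tf b) (tf_cont hb) hr (fun M => W_int hb M) hgc hαβ hbd
  -- the inner integrals
  have hin : ∀ y : ℝ, ∫ τ in ((u : ℝ) * P)..(v * P), g (y, τ) ^ (2 * r) ≤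
      P * C2 * (1 + |y|) ^ (8 * r) := by
    intro y
    have hc1 : Continuous fun τ => st lev χ L (τ + y / L) ^ (2 * r) :=
      ((st_cont hχ hl hL0).comp (by fun_prop)).pow _
    have h2 : ∫ τ in ((u : ℝ) * P)..(v * P), g (y, τ) ^ (2 * r) ≤
        ∫ τ in ((u : ℝ) * P)..(v * P),
          2 ^ (2 * r) * (st lev χ L (τ + y / L) ^ (2 * r) + (y / L ^ 2) ^ (2 * r)) := by
      refine intervalIntegral.integral_mono_on hαβ ?_ ?_ ?_
      · exact (Continuous.intervalIntegrable (by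
          exact (hgc.comp (by fun_prop : Continuous fun τ : ℝ => (y, τ))).pow _) _ _)
      · exact (Continuous.intervalIntegrable (by fun_prop) _ _)
      · intro τ _
        rw [hg]
        exact add_pow_even _ _ _
    rw [intervalIntegral.integral_const_mul, intervalIntegral.integral_add
      (hc1.intervalIntegrable _ _) (by simp), intervalIntegral.integral_const, smul_eq_mul] at h2
    refine h2.trans ?_
    have h3 := hm' y
    rw [one_div, inv_mul_le_iff₀ hP0] at h3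
    have h4 : (y / L ^ 2) ^ (2 * r) ≤ (1 + |y|) ^ (8 * r) := by
      calc (y / L ^ 2) ^ (2 * r) = |y / L ^ 2| ^ (2 * r) := (Even.pow_abs ⟨r, by ring⟩ _).symm
        _ ≤ (1 + |y|) ^ (2 * r) := by
            refine pow_le_pow_left₀ (abs_nonneg _) ?_ _
            have := hyL2 y
            linarith
        _ ≤ (1 + |y|) ^ (8 * r) :=
            pow_le_pow_right₀ (by have := abs_nonneg y; linarith) (by omega)
    have h5 : ((v : ℝ) * P - u * P) * (y / L ^ 2) ^ (2 * r) ≤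
        ((v : ℝ) * P - u * P) * (1 + |y|) ^ (8 * r) :=
      mul_le_mul_of_nonneg_left h4 (by linarith)
    calc 2 ^ (2 * r) * ((∫ τ in ((u : ℝ) * P)..(v * P), st lev χ L (τ + y / L) ^ (2 * r)) +
          ((v : ℝ) * P - u * P) * (y / L ^ 2) ^ (2 * r))
        ≤ 2 ^ (2 * r) * (P * (C1 * (1 + |y|) ^ (8 * r)) +
          ((v : ℝ) * P - u * P) * (1 + |y|) ^ (8 * r)) :=
          mul_le_mul_of_nonneg_left (add_le_add h3 h5) (by positivity)
      _ = P * C2 * (1 + |y|) ^ (8 * r) := by rw [hC2]; ring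
  have hW0 : 0 ≤ W (8 * r) b := W_nonneg _ _
  have hout : ∫ y, |tf b y| * ∫ τ in ((u : ℝ) * P)..(v * P), g (y, τ) ^ (2 * r) ≤
      P * C2 * W (8 * r) b := by
    have h2 : ∫ y, |tf b y| * ∫ τ in ((u : ℝ) * P)..(v * P), g (y, τ) ^ (2 * r) ≤
        ∫ y, (P * C2) * (|tf b y| * (1 + |y|) ^ (8 * r)) := by
      refine integral_mono_of_nonneg (ae_of_all _ fun y => ?_) ((W_int hb _).const_mul _)
        (ae_of_all _ fun y => ?_)
      · refine mul_nonneg (abs_nonneg _) (intervalIntegral.integral_nonneg hαβ fun τ _ => ?_)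
        exact Even.pow_nonneg ⟨r, by ring⟩ _
      · have := mul_le_mul_of_nonneg_left (hin y) (abs_nonneg (tf b y))
        simp only
        calc |tf b y| * ∫ τ in ((u : ℝ) * P)..(v * P), g (y, τ) ^ (2 * r)
            ≤ |tf b y| * (P * C2 * (1 + |y|) ^ (8 * r)) := this
          _ = _ := by ring
    rw [integral_const_mul] at h2
    exact h2
  have hWm : ∫ y, |tf b y| ≤ W (8 * r) b := by
    have h2 := W_mono hb (Nat.zero_le (8 * r))
    have h3 : W 0 b = ∫ y, |tf b y| := by simp [W]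
    rw [← h3]
    exact h2
  have hfin : ∫ τ in ((u : ℝ) * P)..(v * P), (∫ y, tf b y * g (y, τ)) ^ (2 * r) ≤
      P * (C2 * W (8 * r) b ^ (2 * r)) := by
    refine hJ.trans ?_
    have h2 : (∫ y, |tf b y|) ^ (2 * r - 1) ≤ W (8 * r) b ^ (2 * r - 1) :=
      pow_le_pow_left₀ (integral_nonneg fun _ => abs_nonneg _) hWm _
    calc (∫ y, |tf b y|) ^ (2 * r - 1) *
          ∫ y, |tf b y| * ∫ τ in ((u : ℝ) * P)..(v * P), g (y, τ) ^ (2 * r)
        ≤ (∫ y, |tf b y|) ^ (2 * r - 1) * (P * C2 * W (8 * r) b) :=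
          mul_le_mul_of_nonneg_left hout
            (pow_nonneg (integral_nonneg fun _ => abs_nonneg _) _)
      _ ≤ W (8 * r) b ^ (2 * r - 1) * (P * C2 * W (8 * r) b) :=
          mul_le_mul_of_nonneg_right h2 (by positivity)
      _ = P * (C2 * (W (8 * r) b ^ (2 * r - 1) * W (8 * r) b)) := by ring
      _ = P * (C2 * W (8 * r) b ^ (2 * r)) := by
          rw [← pow_succ, show 2 * r - 1 + 1 = 2 * r by omega]
  have hst : ∀ τ : ℝ, (∫ y, tf b y * g (y, τ)) ^ (2 * r) =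
      (2 * Real.pi) ^ (2 * r) * st lev b L τ ^ (2 * r) := by
    intro τ
    have h2 := (st_conv hb hχ hR0 hRb h1 hl hL1 τ).2
    rw [← mul_pow, h2, hg]
  simp only [hst] at hfin
  rw [intervalIntegral.integral_const_mul] at hfin
  have hpi : (0 : ℝ) < (2 * Real.pi) ^ (2 * r) := by positivity
  rw [one_div, inv_mul_le_iff₀ hP0, div_mul_eq_mul_div, ← mul_div_assoc, le_div_iff₀ hpi]
  linarith

end FB23
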