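import Pool.Agent.LibFG33.Defs

/-!
# Row R13: an even cut-off (SHORT, 15 min; only Mathlib + IsAmp)

`ContDiffBump (0 : ℝ)` with `rIn = R + 1`, `rOut = R + 2` (`ContDiffBump.neg`, `ContDiffBump.one_of_mem_closedBall`,
`ContDiffBump.hasCompactSupport`, `ContDiffBump.contDiff`), as a complex valued function.
-/

open Set
open scoped ContDiff

namespace FB23

theorem exists_cut (R : ℕ) : ∃ χ : ℝ → ℂ, FG33.IsAmp χ ∧ ∀ t : ℝ, |t| ≤ R → χ t = 1 := by
  have hR : (0 : ℝ) < (R : ℝ) + 1 := by positivity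
  let φ : ContDiffBump (0 : ℝ) := ⟨(R : ℝ) + 1, (R : ℝ) + 2, hR, by linarith⟩
  have hφ : ContDiff ℝ ∞ (φ : ℝ → ℝ) := φ.contDiff
  refine ⟨fun t => ((φ t : ℝ) : ℂ), ⟨?_, ?_, ?_⟩, ?_⟩
  · exact Complex.ofRealCLM.contDiff.comp hφ
  · exact φ.hasCompactSupport.comp_left (g := fun x : ℝ => (x : ℂ)) Complex.ofReal_zero
  · intro t
    have h1 : φ (-t) = φ t := φ.neg t
    show ((φ (-t) : ℝ) : ℂ) = (starRingEnd ℂ) ((φ t : ℝ) : ℂ)
    rw [h1, Complex.conj_ofReal]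
  · intro t ht
    have h1 : φ t = 1 := by
      apply φ.one_of_mem_closedBall
      rw [Metric.mem_closedBall, Real.dist_eq, sub_zero]
      show |t| ≤ (R : ℝ) + 1
      linarith
    show ((φ t : ℝ) : ℂ) = 1
    rw [h1, Complex.ofReal_one]

end FB23
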