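import Pool.Agent.LibFB23.R4
import Pool.Agent.LibFB23.R13

/-!
# Row R14: a countable dense family

The map `a ↦ (y ↦ tf a y * (1 + |y|)^M)` from the amplitudes with `Sup R` to `L¹(ℝ)`; `L¹` is second
countable, so the range has a countable dense subset.
-/

open MeasureTheory Set Filter Topology
open scoped ContDiff

namespace FB23

open FG33 GWin Mes

theorem exists_countable (R M : ℕ) : ∃ D : Set (ℝ → ℂ), D.Countable ∧
    (∀ b ∈ D, IsAmp b ∧ Sup R b) ∧ ∀ a : ℝ → ℂ, IsAmp a → Sup R a → ∀ ε : ℝ, 0 < ε →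
      ∃ b ∈ D, W M (a - b) < ε := by
  have hint : ∀ a : {a : ℝ → ℂ // IsAmp a ∧ Sup R a},
      Integrable (fun y => tf a.1 y * (1 + |y|) ^ M) := by
    intro a
    refine (W_int a.2.1 M).mono' ?_ (ae_of_all _ fun y => ?_)
    · have := tf_cont a.2.1
      exact (Continuous.mul this (by fun_prop)).aestronglyMeasurable
    · rw [norm_mul, Real.norm_eq_abs, Real.norm_of_nonneg (by positivity)]
  obtain ⟨Φ, hΦ⟩ : ∃ Φ : {a : ℝ → ℂ // IsAmp a ∧ Sup R a} → Lp ℝ 1 (volume : Measure ℝ),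
      Φ = fun a => (hint a).toL1 _ := ⟨_, rfl⟩
  have hdist : ∀ a b, dist (Φ a) (Φ b) = W M (a.1 - b.1) := by
    intro a b
    rw [dist_eq_norm, hΦ]
    simp only
    rw [← Integrable.toL1_sub, L1.norm_of_fun_eq_integral_norm]
    unfold W
    congr 1
    funext y
    rw [Pi.sub_apply, tf_sub a.2.1 b.2.1, ← sub_mul, norm_mul, Real.norm_eq_abs,
      Real.norm_of_nonneg (by positivity)]
  have : Fact ((1 : ENNReal) ≠ ⊤) := ⟨by simp⟩
  have : SecondCountableTopology (Lp ℝ 1 (volume : Measure ℝ)) := inferInstance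
  obtain ⟨t, ht1, ht2, ht3⟩ :=
    (TopologicalSpace.IsSeparable.of_separableSpace (Set.range Φ)).exists_countable_dense_subset
  choose g hg using fun c : t => ht1 c.2
  have hct : Countable t := ht2.to_subtype
  refine ⟨Set.range fun c : t => (g c).1, Set.countable_range _, ?_, ?_⟩
  · rintro b ⟨c, rfl⟩
    exact (g c).2
  · intro a ha hR ε hε
    have h1 : Φ ⟨a, ha, hR⟩ ∈ closure t := ht3 ⟨_, rfl⟩
    obtain ⟨c, hc, hd⟩ := Metric.mem_closure_iff.mp h1 ε hε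
    refine ⟨(g ⟨c, hc⟩).1, ⟨⟨c, hc⟩, rfl⟩, ?_⟩
    have h2 := hg ⟨c, hc⟩
    simp only at h2
    rw [← h2, hdist] at hd
    exact hd

theorem exists_dense : ∃ A : ℕ → ℝ → ℂ, Dense A := by
  choose D hD1 hD2 hD3 using exists_countable
  choose χ hχ1 hχ2 using exists_cut
  have hc : ((⋃ R : ℕ, ⋃ M : ℕ, D R M) ∪ Set.range χ).Countable :=
    (Set.countable_iUnion fun R => Set.countable_iUnion fun M => hD1 R M).union
      (Set.countable_range χ)
  obtain ⟨A, hA⟩ := hc.exists_eq_range ⟨χ 0, Or.inr ⟨0, rfl⟩⟩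
  have hmem : ∀ b, b ∈ ((⋃ R : ℕ, ⋃ M : ℕ, D R M) ∪ Set.range χ) → ∃ j, A j = b := by
    intro b hb
    rw [hA] at hb
    exact hb
  refine ⟨A, ?_, ?_, ?_⟩
  · intro j
    have h1 : A j ∈ ((⋃ R : ℕ, ⋃ M : ℕ, D R M) ∪ Set.range χ) := by
      rw [hA]
      exact ⟨j, rfl⟩
    rcases h1 with h1 | ⟨R, hR⟩
    · simp only [Set.mem_iUnion] at h1
      obtain ⟨R, M, h2⟩ := h1
      exact (hD2 R M _ h2).1
    · rw [← hR]
      exact hχ1 R
  · intro R
    obtain ⟨j, hj⟩ := hmem (χ R) (Or.inr ⟨R, rfl⟩)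
    exact ⟨j, fun t ht => by rw [hj]; exact hχ2 R t ht⟩
  · intro R M a ha hR ε hε
    obtain ⟨b, hb, hb2⟩ := hD3 R M a ha hR ε hε
    obtain ⟨j, hj⟩ := hmem b (Or.inl (Set.mem_iUnion.2 ⟨R, Set.mem_iUnion.2 ⟨M, hb⟩⟩))
    exact ⟨j, by rw [hj]; exact (hD2 R M b hb).2, by rw [hj]; exact hb2⟩

end FB23
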