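import Mathlib

/-!
# Row R15: neighbouring windows (MEDIUM, 35 min; ONLY MATHLIB)

Cauchy-Schwarz for intervals: `cs`: `|∫_α^β X^r| ≤ √(|β - α|) √(∫_[α,β] X^(2r))`
(`(∫ f)² ≤ (β - α) ∫ f²`, e.g. from `∫ (f - m)² ≥ 0`, `m` the mean).
`∫_{θP}^{2θP} - ∫_{uP}^{2uP} = ∫_{θP}^{uP} + ∫_{2uP}^{2θP}`, all inside `[P, 4P]`:
`≤ P √(|θ - u| J) + P √(2 |θ - u| J)`; and `|1/(θP) - 1/(uP)| |∫_{uP}^{2uP} X^r| ≤ |θ - u| √(2 J)` and
`|θ - u| ≤ √|θ - u|`; `√J ≤ 1 + J`.
-/

open MeasureTheory Set Filter Topology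

namespace FB23

private theorem R15_base {F : ℝ → ℝ} (hF : Continuous F) {P α β s : ℝ} (hs : 0 < s)
    (h1 : P ≤ α) (h2 : α ≤ β) (h3 : β ≤ 4 * P) :
    |∫ τ in α..β, F τ| ≤ (s * (∫ τ in P..4 * P, F τ ^ 2) + (β - α) / s) / 2 := by
  have e1 : |∫ τ in α..β, F τ| ≤ ∫ τ in α..β, |F τ| :=
    intervalIntegral.abs_integral_le_integral_abs h2
  have e2 : (∫ τ in α..β, |F τ|) ≤ ∫ τ in α..β, (s * F τ ^ 2 + 1 / s) / 2 := by
    apply intervalIntegral.integral_mono_on h2
    · exact (hF.abs).intervalIntegrable _ _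
    · exact (by fun_prop : Continuous fun τ => (s * F τ ^ 2 + 1 / s) / 2).intervalIntegrable _ _
    · intro τ _
      have h4 : 0 ≤ s * (|F τ| - 1 / s) ^ 2 := by positivity
      have h5 : s * (|F τ| - 1 / s) ^ 2 = s * F τ ^ 2 + 1 / s - 2 * |F τ| := by
        rw [← sq_abs (F τ)]
        field_simp
        ring
      linarith
  have e3 : (∫ τ in α..β, (s * F τ ^ 2 + 1 / s) / 2) =
      (s * (∫ τ in α..β, F τ ^ 2) + (β - α) / s) / 2 := by
    rw [intervalIntegral.integral_div, intervalIntegral.integral_add,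
      intervalIntegral.integral_const_mul, intervalIntegral.integral_const, smul_eq_mul]
    · ring
    · exact (by fun_prop : Continuous fun τ => s * F τ ^ 2).intervalIntegrable _ _
    · exact continuous_const.intervalIntegrable _ _
  have e4 : (∫ τ in α..β, F τ ^ 2) ≤ ∫ τ in P..4 * P, F τ ^ 2 := by
    apply intervalIntegral.integral_mono_interval h1 h2 h3
    · exact Eventually.of_forall fun τ => sq_nonneg _
    · exact (hF.pow 2).intervalIntegrable _ _
  have e5 : s * (∫ τ in α..β, F τ ^ 2) ≤ s * ∫ τ in P..4 * P, F τ ^ 2 :=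
    mul_le_mul_of_nonneg_left e4 hs.le
  linarith

private theorem R15_base' {F : ℝ → ℝ} (hF : Continuous F) {P α β s : ℝ} (hs : 0 < s)
    (h1 : P ≤ α) (h1' : P ≤ β) (h3 : β ≤ 4 * P) (h3' : α ≤ 4 * P) :
    |∫ τ in α..β, F τ| ≤ (s * (∫ τ in P..4 * P, F τ ^ 2) + |β - α| / s) / 2 := by
  rcases le_total α β with h | h
  · rw [abs_of_nonneg (sub_nonneg.2 h)]
    exact R15_base hF hs h1 h h3
  · rw [intervalIntegral.integral_symm, abs_neg, abs_of_nonpos (sub_nonpos.2 h), neg_sub]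
    exact R15_base hF hs h1' h h3'

theorem win_diff {X : ℝ → ℝ} (hX : Continuous X) {P J θ u : ℝ} (hP : 0 < P) (hθ : 1 ≤ θ)
    (hθ2 : θ ≤ 2) (hu : 1 ≤ u) (hu2 : u ≤ 2) (r : ℕ)
    (hJ : 1 / P * (∫ τ in P..4 * P, X τ ^ (2 * r)) ≤ J) :
    |1 / (θ * P) * (∫ τ in (θ * P)..(2 * (θ * P)), X τ ^ r) -
      1 / (u * P) * ∫ τ in (u * P)..(2 * (u * P)), X τ ^ r| ≤ 6 * (1 + J) * √|θ - u| := by
  set F : ℝ → ℝ := fun τ => X τ ^ r with hFdef
  have hF : Continuous F := hX.pow r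
  have hFe : ∀ τ, X τ ^ (2 * r) = F τ ^ 2 := by
    intro τ
    rw [hFdef]
    simp only
    rw [← pow_mul, mul_comm r 2]
  set K : ℝ := ∫ τ in P..4 * P, F τ ^ 2 with hK
  have hK0 : 0 ≤ K := intervalIntegral.integral_nonneg (by linarith) fun τ _ => sq_nonneg _
  have hKJ : K ≤ P * J := by
    simp only [hFe] at hJ
    rw [← hK] at hJ
    rw [one_div, inv_mul_le_iff₀ hP] at hJ
    exact hJ
  have hJ0 : 0 ≤ J := by
    by_contra hcon
    push Not at hcon
    nlinarith
  rcases eq_or_ne θ u with rfl | hne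
  · rw [sub_self, abs_zero]
    positivity
  set η : ℝ := |θ - u| with hη
  have hη0 : 0 < η := abs_pos.2 (sub_ne_zero.2 hne)
  have hη1 : η ≤ 1 := abs_le.2 ⟨by linarith, by linarith⟩
  set w : ℝ := √η with hw
  have hw0 : 0 < w := Real.sqrt_pos.2 hη0
  have hww : w * w = η := Real.mul_self_sqrt hη0.le
  have hηw : η ≤ w := by nlinarith
  have hθP : P ≤ θ * P := by nlinarith
  have huP : P ≤ u * P := by nlinarith
  have hθP4 : 2 * (θ * P) ≤ 4 * P := by nlinarith
  have huP4 : 2 * (u * P) ≤ 4 * P := by nlinarith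
  -- the pieces
  have p1 : |∫ τ in (θ * P)..(u * P), F τ| ≤ w * P * ((1 + J) / 2) := by
    have := R15_base' hF (P := P) (α := θ * P) (β := u * P) hw0 hθP huP (by linarith) (by linarith)
    have h4 : |u * P - θ * P| / w = w * P := by
      rw [← sub_mul, abs_mul, abs_of_pos hP, abs_sub_comm, ← hη, ← hww]
      field_simp
    rw [h4, ← hK] at this
    have h5 : w * K ≤ w * (P * J) := mul_le_mul_of_nonneg_left hKJ hw0.le
    nlinarith
  have p2 : |∫ τ in (2 * (θ * P))..(2 * (u * P)), F τ| ≤ w * P * (1 + J / 2) := by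
    have := R15_base' hF (P := P) (α := 2 * (θ * P)) (β := 2 * (u * P)) hw0 (by linarith)
      (by linarith) (by linarith) (by linarith)
    have h4 : |2 * (u * P) - 2 * (θ * P)| / w = 2 * (w * P) := by
      rw [show 2 * (u * P) - 2 * (θ * P) = 2 * ((u - θ) * P) by ring, abs_mul, abs_mul,
        abs_of_pos hP, abs_sub_comm, ← hη, ← hww, abs_of_pos (by norm_num : (0 : ℝ) < 2)]
      field_simp
    rw [h4, ← hK] at this
    have h5 : w * K ≤ w * (P * J) := mul_le_mul_of_nonneg_left hKJ hw0.le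
    nlinarith
  have p3 : |∫ τ in (u * P)..(2 * (u * P)), F τ| ≤ P * (1 + J / 2) := by
    have := R15_base hF (P := P) (α := u * P) (β := 2 * (u * P)) one_pos huP (by linarith) huP4
    rw [← hK] at this
    have h5 : u * P ≤ 2 * P := by nlinarith
    have h6 : (2 * (u * P) - u * P) / 1 = u * P := by ring
    rw [h6] at this
    linarith
  have hd : 1 / (θ * P) * (∫ τ in (θ * P)..(2 * (θ * P)), F τ) -
      1 / (u * P) * (∫ τ in (u * P)..(2 * (u * P)), F τ) =
      1 / (θ * P) * ((∫ τ in (θ * P)..(u * P), F τ) - ∫ τ in (2 * (θ * P))..(2 * (u * P)), F τ) +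
        (1 / (θ * P) - 1 / (u * P)) * ∫ τ in (u * P)..(2 * (u * P)), F τ := by
    have h4 := intervalIntegral.integral_interval_sub_interval_comm
      (hF.intervalIntegrable (μ := volume) (θ * P) (2 * (θ * P)))
      (hF.intervalIntegrable (μ := volume) (u * P) (2 * (u * P)))
      (hF.intervalIntegrable (μ := volume) (θ * P) (u * P))
    rw [← h4]
    ring
  show |1 / (θ * P) * (∫ τ in (θ * P)..(2 * (θ * P)), F τ) -
      1 / (u * P) * (∫ τ in (u * P)..(2 * (u * P)), F τ)| ≤ _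
  rw [hd]
  have q1 : |1 / (θ * P) * ((∫ τ in (θ * P)..(u * P), F τ) -
      ∫ τ in (2 * (θ * P))..(2 * (u * P)), F τ)| ≤ w * (3 / 2 + J) := by
    rw [abs_mul, abs_of_pos (by positivity : 0 < 1 / (θ * P))]
    have h4 : |(∫ τ in (θ * P)..(u * P), F τ) - ∫ τ in (2 * (θ * P))..(2 * (u * P)), F τ| ≤
        P * (w * (3 / 2 + J)) := by
      refine (abs_sub _ _).trans ?_
      linarith
    have h5 : 1 / (θ * P) ≤ 1 / P := one_div_le_one_div_of_le hP hθP
    calc 1 / (θ * P) * |(∫ τ in (θ * P)..(u * P), F τ) -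
          ∫ τ in (2 * (θ * P))..(2 * (u * P)), F τ|
        ≤ 1 / P * (P * (w * (3 / 2 + J))) := by
          apply mul_le_mul h5 h4 (abs_nonneg _) (by positivity)
      _ = w * (3 / 2 + J) := by field_simp
  have q2 : |(1 / (θ * P) - 1 / (u * P)) * ∫ τ in (u * P)..(2 * (u * P)), F τ| ≤
      w * (1 + J / 2) := by
    rw [abs_mul]
    have h4 : |1 / (θ * P) - 1 / (u * P)| ≤ w / P := by
      have h5 : 1 / (θ * P) - 1 / (u * P) = (u - θ) / (θ * u * P) := by
        have : θ ≠ 0 := by linarith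
        have : u ≠ 0 := by linarith
        field_simp
      rw [h5, abs_div, abs_sub_comm, ← hη, abs_of_pos (by positivity : 0 < θ * u * P)]
      apply div_le_div₀ hw0.le hηw hP
      have : 1 ≤ θ * u := by nlinarith
      nlinarith
    calc |1 / (θ * P) - 1 / (u * P)| * |∫ τ in (u * P)..(2 * (u * P)), F τ|
        ≤ w / P * (P * (1 + J / 2)) := mul_le_mul h4 p3 (abs_nonneg _) (by positivity)
      _ = w * (1 + J / 2) := by field_simp
  refine (abs_add_le _ _).trans ?_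
  nlinarith

end FB23
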