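import Mathlib

/-!
# Row R16: powers of neighbouring functions (MEDIUM, 35 min; ONLY MATHLIB)

`|x^r - y^r| ≤ r |x - y| m^(r-1)`, `m = max |x| |y|` (`abs_pow_sub_pow_le`), `m^(2(r-1)) ≤ 1 + x^(2r) + y^(2r)`,
Cauchy-Schwarz `∫ f g ≤ √(∫ f²) √(∫ g²)` on `[α, β]`:
`(1/P) ∫ |X^r - Y^r| ≤ r √D √((β - α)/P + 2 J) ≤ r √D (3 + J)` (`(β - α)/P ≤ 4`).
-/

open MeasureTheory Set Filter Topology

namespace FB23

private theorem R16_pt (x y : ℝ) (r : ℕ) {s : ℝ} (hs : 0 < s) :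
    |x ^ r - y ^ r| ≤ r * ((s * (x - y) ^ 2 + (1 + x ^ (2 * r) + y ^ (2 * r)) / s) / 2) := by
  rcases Nat.eq_zero_or_pos r with rfl | hr
  · simp
  have h1 := abs_pow_sub_pow_le x y r
  set m : ℝ := max |x| |y| with hm
  have hm0 : 0 ≤ m := (abs_nonneg x).trans (le_max_left _ _)
  have hx0 : 0 ≤ x ^ (2 * r) := by rw [pow_mul]; exact pow_nonneg (sq_nonneg x) r
  have hy0 : 0 ≤ y ^ (2 * r) := by rw [pow_mul]; exact pow_nonneg (sq_nonneg y) r
  have hm2 : (m ^ (r - 1)) ^ 2 ≤ 1 + x ^ (2 * r) + y ^ (2 * r) := by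
    rcases le_total m 1 with h | h
    · have h2 : (m ^ (r - 1)) ^ 2 ≤ 1 := pow_le_one₀ (pow_nonneg hm0 _) (pow_le_one₀ hm0 h)
      linarith
    · have h2 : (m ^ (r - 1)) ^ 2 ≤ m ^ (2 * r) := by
        rw [← pow_mul]
        exact pow_le_pow_right₀ h (by omega)
      have h3 : m ^ (2 * r) ≤ x ^ (2 * r) + y ^ (2 * r) := by
        rcases le_total |x| |y| with h4 | h4
        · rw [hm, max_eq_right h4, pow_mul |y| 2 r, sq_abs, ← pow_mul]
          linarith
        · rw [hm, max_eq_left h4, pow_mul |x| 2 r, sq_abs, ← pow_mul]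
          linarith
      linarith
  have h2 : |x - y| * m ^ (r - 1) ≤
      (s * (x - y) ^ 2 + (1 + x ^ (2 * r) + y ^ (2 * r)) / s) / 2 := by
    have h3 : (m ^ (r - 1)) ^ 2 / s ≤ (1 + x ^ (2 * r) + y ^ (2 * r)) / s :=
      div_le_div_of_nonneg_right hm2 hs.le
    have h4 : 0 ≤ s * (|x - y| - m ^ (r - 1) / s) ^ 2 := by positivity
    have h5 : s * (|x - y| - m ^ (r - 1) / s) ^ 2 =
        s * (x - y) ^ 2 + (m ^ (r - 1)) ^ 2 / s - 2 * (|x - y| * m ^ (r - 1)) := by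
      rw [← sq_abs (x - y)]
      field_simp
      ring
    linarith
  have hr0 : (0 : ℝ) ≤ r := Nat.cast_nonneg r
  calc |x ^ r - y ^ r| ≤ |x - y| * r * m ^ (r - 1) := h1
    _ = r * (|x - y| * m ^ (r - 1)) := by ring
    _ ≤ _ := mul_le_mul_of_nonneg_left h2 hr0

theorem pow_avg {X Y : ℝ → ℝ} (hX : Continuous X) (hY : Continuous Y) {P α β J D : ℝ} (hP : 0 < P)
    (hαβ : α ≤ β) (hβ : β - α ≤ 4 * P) (r : ℕ)
    (hD : 1 / P * (∫ τ in α..β, (X τ - Y τ) ^ 2) ≤ D)
    (hJX : 1 / P * (∫ τ in α..β, X τ ^ (2 * r)) ≤ J)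
    (hJY : 1 / P * (∫ τ in α..β, Y τ ^ (2 * r)) ≤ J) :
    |1 / P * (∫ τ in α..β, X τ ^ r) - 1 / P * ∫ τ in α..β, Y τ ^ r| ≤ r * √D * (3 + J) := by
  have hr0 : (0 : ℝ) ≤ r := Nat.cast_nonneg r
  have hD0 : 0 ≤ D := by
    refine le_trans ?_ hD
    exact mul_nonneg (by positivity) (intervalIntegral.integral_nonneg hαβ fun τ _ => sq_nonneg _)
  have hJ0 : 0 ≤ J := by
    refine le_trans ?_ hJX
    refine mul_nonneg (by positivity) (intervalIntegral.integral_nonneg hαβ fun τ _ => ?_)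
    rw [pow_mul]; exact pow_nonneg (sq_nonneg _) r
  have hP1 : 0 < 1 / P := by positivity
  -- the bound with a parameter
  have key : ∀ s : ℝ, 0 < s →
      |1 / P * (∫ τ in α..β, X τ ^ r) - 1 / P * ∫ τ in α..β, Y τ ^ r| ≤
        r * ((s * D + (4 + 2 * J) / s) / 2) := by
    intro s hs
    have e0 : (∫ τ in α..β, X τ ^ r) - (∫ τ in α..β, Y τ ^ r) = ∫ τ in α..β, (X τ ^ r - Y τ ^ r) :=
      (intervalIntegral.integral_sub ((hX.pow r).intervalIntegrable _ _)
        ((hY.pow r).intervalIntegrable _ _)).symm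
    rw [← mul_sub, e0, abs_mul, abs_of_pos hP1]
    have e1 : |∫ τ in α..β, (X τ ^ r - Y τ ^ r)| ≤ ∫ τ in α..β, |X τ ^ r - Y τ ^ r| :=
      intervalIntegral.abs_integral_le_integral_abs hαβ
    have e2 : (∫ τ in α..β, |X τ ^ r - Y τ ^ r|) ≤ ∫ τ in α..β,
        r * ((s * (X τ - Y τ) ^ 2 + (1 + X τ ^ (2 * r) + Y τ ^ (2 * r)) / s) / 2) := by
      apply intervalIntegral.integral_mono_on hαβ
      · exact (((hX.pow r).sub (hY.pow r)).abs).intervalIntegrable _ _
      · exact (by fun_prop : Continuous fun τ =>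
          r * ((s * (X τ - Y τ) ^ 2 + (1 + X τ ^ (2 * r) + Y τ ^ (2 * r)) / s) / 2)).intervalIntegrable _ _
      · intro τ _
        exact R16_pt _ _ r hs
    have e3 : (∫ τ in α..β,
        (r : ℝ) * ((s * (X τ - Y τ) ^ 2 + (1 + X τ ^ (2 * r) + Y τ ^ (2 * r)) / s) / 2)) =
        r * ((s * (∫ τ in α..β, (X τ - Y τ) ^ 2) +
          ((β - α) + (∫ τ in α..β, X τ ^ (2 * r)) + ∫ τ in α..β, Y τ ^ (2 * r)) / s) / 2) := by
      rw [intervalIntegral.integral_const_mul, intervalIntegral.integral_div,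
        intervalIntegral.integral_add, intervalIntegral.integral_const_mul,
        intervalIntegral.integral_div, intervalIntegral.integral_add,
        intervalIntegral.integral_add, intervalIntegral.integral_const, smul_eq_mul, mul_one]
      · exact continuous_const.intervalIntegrable _ _
      · exact (hX.pow _).intervalIntegrable _ _
      · exact (by fun_prop : Continuous fun τ => 1 + X τ ^ (2 * r)).intervalIntegrable _ _
      · exact (hY.pow _).intervalIntegrable _ _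
      · exact (by fun_prop : Continuous fun τ => s * (X τ - Y τ) ^ 2).intervalIntegrable _ _
      · exact (by fun_prop : Continuous fun τ =>
          (1 + X τ ^ (2 * r) + Y τ ^ (2 * r)) / s).intervalIntegrable _ _
    have e4 : 1 / P * (r * ((s * (∫ τ in α..β, (X τ - Y τ) ^ 2) +
          ((β - α) + (∫ τ in α..β, X τ ^ (2 * r)) + ∫ τ in α..β, Y τ ^ (2 * r)) / s) / 2)) =
        r * ((s * (1 / P * ∫ τ in α..β, (X τ - Y τ) ^ 2) +
          (1 / P * (β - α) + (1 / P * ∫ τ in α..β, X τ ^ (2 * r)) +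
            1 / P * ∫ τ in α..β, Y τ ^ (2 * r)) / s) / 2) := by
      ring
    have e5 : 1 / P * (β - α) ≤ 4 := by
      rw [one_div, inv_mul_le_iff₀ hP]; linarith
    have e6 : 1 / P * |∫ τ in α..β, (X τ ^ r - Y τ ^ r)| ≤
        1 / P * (r * ((s * (∫ τ in α..β, (X τ - Y τ) ^ 2) +
          ((β - α) + (∫ τ in α..β, X τ ^ (2 * r)) + ∫ τ in α..β, Y τ ^ (2 * r)) / s) / 2)) :=
      mul_le_mul_of_nonneg_left ((e1.trans e2).trans e3.le) hP1.le
    refine e6.trans ?_
    rw [e4]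
    apply mul_le_mul_of_nonneg_left _ hr0
    have e7 : s * (1 / P * ∫ τ in α..β, (X τ - Y τ) ^ 2) ≤ s * D :=
      mul_le_mul_of_nonneg_left hD hs.le
    have e8 : (1 / P * (β - α) + (1 / P * ∫ τ in α..β, X τ ^ (2 * r)) +
            1 / P * ∫ τ in α..β, Y τ ^ (2 * r)) / s ≤ (4 + 2 * J) / s := by
      apply div_le_div_of_nonneg_right _ hs.le
      linarith
    linarith
  -- positive `D + δ`
  have key2 : ∀ δ : ℝ, 0 < δ →
      |1 / P * (∫ τ in α..β, X τ ^ r) - 1 / P * ∫ τ in α..β, Y τ ^ r| ≤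
        r * √(D + δ) * (3 + J) := by
    intro δ hδ
    set q : ℝ := √(D + δ) with hq
    have hq0 : 0 < q := Real.sqrt_pos.2 (by linarith)
    have hqq : q * q = D + δ := Real.mul_self_sqrt (by linarith)
    have h3 : 0 < (3 + J) / q := by positivity
    refine (key _ h3).trans ?_
    rw [mul_assoc]
    apply mul_le_mul_of_nonneg_left _ hr0
    have h4 : (3 + J) / q * D ≤ (3 + J) * q := by
      rw [div_mul_eq_mul_div, div_le_iff₀ hq0]
      have : (3 + J) * q * q = (3 + J) * (D + δ) := by rw [mul_assoc, hqq]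
      rw [this]
      apply mul_le_mul_of_nonneg_left _ (by linarith)
      linarith
    have h5 : (4 + 2 * J) / ((3 + J) / q) ≤ (3 + J) * q := by
      rw [div_div_eq_mul_div, div_le_iff₀ (by linarith)]
      nlinarith [mul_pos hq0 (by linarith : 0 < 3 + J)]
    linarith
  have hlim : Tendsto (fun δ : ℝ => (r : ℝ) * √(D + δ) * (3 + J)) (𝓝[>] 0)
      (𝓝 ((r : ℝ) * √(D + 0) * (3 + J))) := by
    have hc : Continuous fun δ : ℝ => (r : ℝ) * √(D + δ) * (3 + J) := by fun_prop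
    exact (hc.tendsto 0).mono_left nhdsWithin_le_nhds
  rw [add_zero] at hlim
  refine ge_of_tendsto hlim ?_
  filter_upwards [self_mem_nhdsWithin] with δ hδ
  exact key2 δ hδ

end FB23
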