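import Mathlib

/-!
# Row R18: dyadic decomposition (SHORT, 15 min; ONLY MATHLIB)

`k = Nat.log 2 ⌊T⌋₊`: `2^k ≤ ⌊T⌋₊ ≤ T` and `T < ⌊T⌋₊ + 1 ≤ 2^(k+1)` (`Nat.pow_log_le_self`,
`Nat.lt_pow_succ_log_self`, `Nat.floor_le`, `Nat.lt_floor_add_one`).
-/

open Filter Topology

namespace FB23

/-- the dyadic exponent -/
noncomputable def dk (T : ℝ) : ℕ := Nat.log 2 ⌊T⌋₊

theorem dk_le {T : ℝ} (hT : 1 ≤ T) : (2 : ℝ) ^ dk T ≤ T := by
  have h0 : ⌊T⌋₊ ≠ 0 := by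
    have := Nat.le_floor (α := ℝ) (n := 1) (a := T) (by exact_mod_cast hT)
    omega
  have h1 : 2 ^ Nat.log 2 ⌊T⌋₊ ≤ ⌊T⌋₊ := Nat.pow_log_le_self 2 h0
  have h2 : ((2 ^ Nat.log 2 ⌊T⌋₊ : ℕ) : ℝ) ≤ (⌊T⌋₊ : ℝ) := by exact_mod_cast h1
  have h3 : (⌊T⌋₊ : ℝ) ≤ T := Nat.floor_le (by linarith)
  unfold dk
  push_cast at h2
  exact h2.trans h3

private theorem R18_lt (T : ℝ) : T < 2 * (2 : ℝ) ^ dk T := by
  have h1 : ⌊T⌋₊ < 2 ^ (Nat.log 2 ⌊T⌋₊ + 1) := Nat.lt_pow_succ_log_self (by norm_num) _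
  have h2 : ((⌊T⌋₊ : ℕ) : ℝ) + 1 ≤ ((2 ^ (Nat.log 2 ⌊T⌋₊ + 1) : ℕ) : ℝ) := by exact_mod_cast h1
  have h3 : T < (⌊T⌋₊ : ℝ) + 1 := Nat.lt_floor_add_one T
  unfold dk
  rw [pow_succ] at h2
  push_cast at h2
  linarith

theorem dk_lt {T : ℝ} (hT : 1 ≤ T) : T < 2 * (2 : ℝ) ^ dk T := R18_lt T

theorem dk_tendsto : Tendsto dk atTop atTop := by
  rw [tendsto_atTop]
  intro n
  filter_upwards [eventually_ge_atTop (2 * (2 : ℝ) ^ n)] with T hT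
  by_contra hcon
  have h1 : dk T ≤ n := (not_le.1 hcon).le
  have h2 : (2 : ℝ) ^ dk T ≤ 2 ^ n := pow_le_pow_right₀ (by norm_num) h1
  have h3 := R18_lt T
  linarith

/-- `log T ≤ dk T` for large `T` -/
theorem log_le_dk : ∀ᶠ T : ℝ in atTop, Real.log T ≤ dk T := by
  filter_upwards [eventually_ge_atTop (Real.exp 3)] with T hT
  have hT0 : 0 < T := (Real.exp_pos 3).trans_le hT
  have h3 : 3 ≤ Real.log T := (Real.le_log_iff_exp_le hT0).2 hT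
  have h1 : Real.log T < Real.log (2 * (2 : ℝ) ^ dk T) := Real.log_lt_log hT0 (R18_lt T)
  rw [Real.log_mul (by norm_num) (by positivity), Real.log_pow] at h1
  have h2 : Real.log 2 < 0.6931471808 := Real.log_two_lt_d9
  have h4 : 0 < Real.log 2 := Real.log_pos (by norm_num)
  by_contra hcon
  have h5 : (dk T : ℝ) < Real.log T := not_le.1 hcon
  have h6 : (dk T : ℝ) * Real.log 2 ≤ Real.log T * Real.log 2 :=
    mul_le_mul_of_nonneg_right h5.le h4.le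
  have h7 : Real.log T * Real.log 2 ≤ Real.log T * 0.6931471808 :=
    mul_le_mul_of_nonneg_left h2.le (by linarith)
  linarith

end FB23
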