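import Pool.Agent.LibFB23.Defs

/-!
# Row R6: Fourier inversion (MEDIUM, 35 min)

`∫ b(t) e^{i t y} dt = tf b y` (`GWin.tf_real`, LibGWa/U1).  In terms of Mathlib's `𝓕`:
`tf b y = 𝓕 S (-(y / (2 π)))`, `S = hb.supp.toSchwartzMap hb.smooth` (proof of `tf_eq_fourier` +
`tf_real`).  Inversion for Schwartz functions (`SchwartzMap.fourierInv_fourier_eq`,
`FourierTransform.fourierInv_fourier_eq` / `Continuous.fourierInv_fourier_eq`) and the substitution
`ξ = - y / (2 π)` give `inv`; `sup_le` follows by `norm_integral_le_integral_norm`.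
-/

open MeasureTheory Set Filter Topology
open scoped ContDiff

namespace FB23

open FG33 GWin Mes

section R6Aux

open scoped FourierTransform SchwartzMap

private theorem r6_tf_eq_inv {a : ℝ → ℂ} (ha : IsAmp a) (y : ℝ) :
    (tf a y : ℂ) = 𝓕⁻ a (y / (2 * Real.pi)) := by
  rw [← tf_real ha, Real.fourierInv_eq]
  refine integral_congr_ae (Eventually.of_forall fun t => ?_)
  dsimp only
  rw [Circle.smul_def, smul_eq_mul, mul_comm, Real.fourierChar_apply]
  congr 2
  simp only [RCLike.inner_apply, conj_trivial]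
  push_cast
  have : (Real.pi : ℂ) ≠ 0 := by exact_mod_cast Real.pi_ne_zero
  field_simp

private theorem r6_inv {a : ℝ → ℂ} (ha : IsAmp a) (t : ℝ) :
    ∫ y : ℝ, ((tf a y : ℝ) : ℂ) * Complex.exp (-(Complex.I * (t * y : ℝ))) =
      2 * Real.pi * a t := by
  have hpi := Real.pi_pos
  have h1 : ∫ y : ℝ, ((tf a y : ℝ) : ℂ) * Complex.exp (-(Complex.I * (t * y : ℝ))) =
      ∫ u : ℝ, (fun x : ℝ => 𝓕⁻ a x *
      Complex.exp (-(Complex.I * (t * (2 * Real.pi * x) : ℝ)))) ((2 * Real.pi : ℝ)⁻¹ * u) := by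
    refine integral_congr_ae (Eventually.of_forall fun u => ?_)
    dsimp only
    rw [r6_tf_eq_inv ha, div_eq_inv_mul, mul_inv_cancel_left₀ (by positivity)]
  rw [h1, Measure.integral_comp_mul_left (fun x : ℝ => 𝓕⁻ a x *
      Complex.exp (-(Complex.I * (t * (2 * Real.pi * x) : ℝ)))) (2 * Real.pi : ℝ)⁻¹, inv_inv,
      abs_of_pos (by positivity)]
  have h3 : ∫ x : ℝ, 𝓕⁻ a x * Complex.exp (-(Complex.I * (t * (2 * Real.pi * x) : ℝ))) =
      𝓕 (𝓕⁻ a) t := by
    rw [Real.fourier_eq]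
    refine integral_congr_ae (Eventually.of_forall fun x => ?_)
    dsimp only
    rw [Circle.smul_def, smul_eq_mul, mul_comm, Real.fourierChar_apply]
    congr 2
    simp only [RCLike.inner_apply, conj_trivial]
    push_cast
    ring
  rw [h3]
  have h4 : 𝓕 (𝓕⁻ a) t = a t := by
    have h5 : (𝓕⁻ (ha.supp.toSchwartzMap ha.smooth) : 𝓢(ℝ, ℂ)) = (𝓕⁻ a : ℝ → ℂ) := by
      rw [SchwartzMap.fourierInv_coe]
      rfl
    have h6 : 𝓕 (𝓕⁻ (ha.supp.toSchwartzMap ha.smooth)) = ha.supp.toSchwartzMap ha.smooth :=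
      FourierTransform.fourier_fourierInv_eq _
    have h7 := congrArg (fun g : 𝓢(ℝ, ℂ) => g t) h6
    rw [SchwartzMap.fourier_coe, h5] at h7
    rw [h7]
    rfl
  rw [h4, Complex.real_smul]
  push_cast
  ring

end R6Aux

theorem inv {b : ℝ → ℂ} (hb : IsAmp b) (t : ℝ) :
    ∫ y : ℝ, ((tf b y : ℝ) : ℂ) * Complex.exp (-(Complex.I * (t * y : ℝ))) =
      2 * Real.pi * b t := r6_inv hb t

theorem sup_le {b : ℝ → ℂ} (hb : IsAmp b) (t : ℝ) : ‖b t‖ ≤ W 0 b := by
  have hpi := Real.pi_gt_three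
  have h1 : ‖(2 * Real.pi * b t : ℂ)‖ ≤ ∫ y, |tf b y| := by
    rw [← r6_inv hb t]
    refine (norm_integral_le_integral_norm _).trans (le_of_eq ?_)
    refine integral_congr_ae (Eventually.of_forall fun y => ?_)
    dsimp only
    have h2 : ‖Complex.exp (-(Complex.I * (t * y : ℝ)))‖ = 1 := by
      rw [show -(Complex.I * ((t * y : ℝ) : ℂ)) = ((-(t * y) : ℝ) : ℂ) * Complex.I by
        push_cast; ring]
      exact Complex.norm_exp_ofReal_mul_I _
    rw [norm_mul, h2, mul_one, Complex.norm_real, Real.norm_eq_abs]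
  have h3 : ‖(2 * Real.pi * b t : ℂ)‖ = 2 * Real.pi * ‖b t‖ := by
    rw [norm_mul, norm_mul, Complex.norm_real, Real.norm_eq_abs, abs_of_pos Real.pi_pos]
    norm_num
  have h4 : W 0 b = ∫ y, |tf b y| := by
    unfold W
    simp
  rw [h4]
  rw [h3] at h1
  nlinarith [norm_nonneg (b t)]

/-- the integral of the test function of a cut-off -/
theorem int_tf {b : ℝ → ℂ} (hb : IsAmp b) : ∫ y, tf b y = 2 * Real.pi * (b 0).re := by
  have h1 := r6_inv hb 0
  simp only [zero_mul, Complex.ofReal_zero, mul_zero, neg_zero, Complex.exp_zero, mul_one] at h1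
  rw [integral_complex_ofReal] at h1
  have h2 := congrArg Complex.re h1
  rw [Complex.ofReal_re] at h2
  rw [h2]
  simp [Complex.mul_re]

end FB23
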