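import Pool.Agent.LibFB23.R4
import Pool.Agent.LibFB23.R6

/-!
# Row R7: continuity of the variance (SHORT/MEDIUM, 25 min)

`vg a = 4 ∫_0^R s |a(s)|² ds` for `Sup R a` (`GWin.vg_eq`, LibGWa/V4), `||a|² - |b|²| ≤
(|a| + |b|) |a - b| ≤ (W 0 a + W 0 b) W 0 (a - b)` (R6 `sup_le`), `4 ∫_0^R s ds = 2 R²`.
-/

open MeasureTheory Set Filter Topology
open scoped ContDiff

namespace FB23

open FG33 GWin Mes

theorem vg_lip {a b : ℝ → ℂ} (ha : IsAmp a) (hb : IsAmp b) {R : ℝ} (hR : 0 ≤ R) (hRa : Sup R a)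
    (hRb : Sup R b) :
    |vg a - vg b| ≤ 2 * R ^ 2 * (W 0 a + W 0 b) * W 0 (a - b) := by
  have hab : IsAmp (a - b) := amp_sub ha hb
  have h1 : ∀ {c : ℝ → ℂ}, Sup R c → ∀ s, R < s → c s = 0 := by
    intro c hc s hs
    exact hc s (hs.trans_le (le_abs_self s))
  have hc1 : Continuous fun s : ℝ => s * ‖a s‖ ^ 2 :=
    continuous_id.mul (ha.smooth.continuous.norm.pow 2)
  have hc2 : Continuous fun s : ℝ => s * ‖b s‖ ^ 2 :=
    continuous_id.mul (hb.smooth.continuous.norm.pow 2)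
  rw [vg_eq hR (h1 hRa), vg_eq hR (h1 hRb), ← mul_sub,
    ← intervalIntegral.integral_sub (hc1.intervalIntegrable _ _) (hc2.intervalIntegrable _ _),
    abs_mul, abs_of_pos (by norm_num : (0 : ℝ) < 4)]
  obtain ⟨K, hK⟩ : ∃ K, K = (W 0 a + W 0 b) * W 0 (a - b) := ⟨_, rfl⟩
  have h2 : ∀ s ∈ Set.Icc 0 R, |s * ‖a s‖ ^ 2 - s * ‖b s‖ ^ 2| ≤ s * K := by
    intro s hs
    have e1 : s * ‖a s‖ ^ 2 - s * ‖b s‖ ^ 2 = s * ((‖a s‖ + ‖b s‖) * (‖a s‖ - ‖b s‖)) := by ring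
    rw [e1, abs_mul, abs_of_nonneg hs.1, abs_mul, hK]
    have e2 : |‖a s‖ + ‖b s‖| ≤ W 0 a + W 0 b := by
      rw [abs_of_nonneg (add_nonneg (norm_nonneg _) (norm_nonneg _))]
      exact add_le_add (sup_le ha s) (sup_le hb s)
    have e3 : |‖a s‖ - ‖b s‖| ≤ W 0 (a - b) :=
      (abs_norm_sub_norm_le _ _).trans (sup_le hab s)
    exact mul_le_mul_of_nonneg_left (mul_le_mul e2 e3 (abs_nonneg _)
      (add_nonneg (W_nonneg _ _) (W_nonneg _ _))) hs.1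
  have h3 : |∫ s in (0 : ℝ)..R, (s * ‖a s‖ ^ 2 - s * ‖b s‖ ^ 2)| ≤ ∫ s in (0 : ℝ)..R, s * K := by
    refine (intervalIntegral.abs_integral_le_integral_abs hR).trans ?_
    refine intervalIntegral.integral_mono_on hR ?_ ?_ h2
    · exact ((hc1.sub hc2).abs).intervalIntegrable _ _
    · exact (continuous_id.mul continuous_const).intervalIntegrable _ _
  have h4 : ∫ s in (0 : ℝ)..R, s * K = R ^ 2 / 2 * K := by
    rw [intervalIntegral.integral_mul_const, integral_id]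
    ring
  rw [h4] at h3
  rw [mul_assoc, ← hK]
  linarith

end FB23
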