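import Pool.Agent.LibFB23.R5
import Pool.Agent.LibFB23.R7
import Pool.Agent.LibFB23.R12
import Pool.Agent.LibFB23.R14
import Pool.Agent.LibFB23.R15
import Pool.Agent.LibFB23.R16
import Pool.Agent.LibFB23.R18

/-!
# The assembly
-/

open MeasureTheory Set Filter Topology
open scoped ContDiff

namespace FB23

open FG33 GWin Mes

theorem exists_sup {a : ℝ → ℂ} (ha : IsAmp a) : ∃ R : ℕ, Sup R a := by
  obtain ⟨R, _, hR⟩ := ha.supp.isCompact.isBounded.exists_pos_norm_lt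
  obtain ⟨n, hn⟩ := exists_nat_ge R
  refine ⟨n, fun t ht => ?_⟩
  by_contra h
  have h1 := hR t (subset_tsupport a h)
  rw [Real.norm_eq_abs] at h1
  linarith

theorem W_sca_bdd {a : ℝ → ℂ} (ha : IsAmp a) (M : ℕ) : ∃ B : ℝ, 0 ≤ B ∧ ∀ s, 1 ≤ s → s ≤ 2 →
    W M (sca s a) ≤ B := by
  obtain ⟨C, hC, h⟩ := sca_lip ha M
  refine ⟨W M (sca 1 a) + C, add_nonneg (W_nonneg _ _) hC, fun s h1 h2 => ?_⟩
  have h3 := W_le_add (sca_amp ha one_pos) (sca_amp ha (by linarith : 0 < s)) M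
  have h4 := h 1 s le_rfl (by norm_num) h1 h2
  have h5 : |1 - s| ≤ 1 := abs_le.2 ⟨by linarith, by linarith⟩
  have h6 : C * |1 - s| ≤ C * 1 := mul_le_mul_of_nonneg_left h5 hC
  linarith

theorem mono_int {f : ℝ → ℝ} (hf : Continuous f) (h0 : ∀ x, 0 ≤ f x) {P u : ℝ} (hP : 0 < P)
    (hu : 1 ≤ u) (hu2 : u ≤ 2) : ∫ τ in (u * P)..(2 * (u * P)), f τ ≤ ∫ τ in P..4 * P, f τ := by
  refine intervalIntegral.integral_mono_interval ?_ ?_ ?_ (ae_of_all _ h0)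
    (hf.intervalIntegrable _ _)
  · nlinarith
  · nlinarith
  · nlinarith

/-- one time, one window -/
theorem one_step {lev : ℕ → ℝ} (hl : Lev lev) {R : ℝ} {r : ℕ} {C1 Cr B wd P l : ℝ}
    (hC1 : 0 ≤ C1) (hCr : 0 ≤ Cr) (hP : 0 < P) (hl0 : 0 < l)
    (h1 : ∀ b, IsAmp b → Sup R b → 1 / P * (∫ τ in P..4 * P, st lev b l τ ^ 2) ≤ C1 * W 8 b ^ 2)
    (hr : ∀ b, IsAmp b → Sup R b →
      1 / P * (∫ τ in P..4 * P, st lev b l τ ^ (2 * r)) ≤ Cr * W (8 * r) b ^ (2 * r))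
    {b c : ℝ → ℂ} (hb : IsAmp b) (hc : IsAmp c) (hbR : Sup R b) (hcR : Sup R c)
    (hWb : W (8 * r) b ≤ B) (hWc : W (8 * r) c ≤ B) (hW : W 8 (b - c) ≤ wd) {θ u : ℝ}
    (hθ : 1 ≤ θ) (hθ2 : θ ≤ 2) (hu : 1 ≤ u) (hu2 : u ≤ 2) :
    |1 / (θ * P) * (∫ τ in (θ * P)..(2 * (θ * P)), st lev b l τ ^ r) -
      1 / (u * P) * ∫ τ in (u * P)..(2 * (u * P)), st lev c l τ ^ r| ≤
      6 * (1 + Cr * B ^ (2 * r)) * √|θ - u| + r * √(C1 * wd ^ 2) * (3 + Cr * B ^ (2 * r)) := by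
  have hcb := st_cont hb hl hl0
  have hcc := st_cont hc hl hl0
  have hP1 : 0 ≤ 1 / P := by positivity
  have e1 : 1 / P * (∫ τ in P..4 * P, st lev b l τ ^ (2 * r)) ≤ Cr * B ^ (2 * r) :=
    (hr b hb hbR).trans (mul_le_mul_of_nonneg_left
      (pow_le_pow_left₀ (W_nonneg _ _) hWb _) hCr)
  have e2 : 1 / P * (∫ τ in P..4 * P, st lev c l τ ^ (2 * r)) ≤ Cr * B ^ (2 * r) :=
    (hr c hc hcR).trans (mul_le_mul_of_nonneg_left
      (pow_le_pow_left₀ (W_nonneg _ _) hWc _) hCr)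
  have e3 : 1 / P * (∫ τ in P..4 * P, st lev (b - c) l τ ^ 2) ≤ C1 * wd ^ 2 :=
    (h1 _ (amp_sub hb hc) (sup_sub hbR hcR)).trans (mul_le_mul_of_nonneg_left
      (pow_le_pow_left₀ (W_nonneg _ _) hW _) hC1)
  have f1 : 1 / P * (∫ τ in (u * P)..(2 * (u * P)), st lev b l τ ^ (2 * r)) ≤
      Cr * B ^ (2 * r) :=
    (mul_le_mul_of_nonneg_left (mono_int (hcb.pow _) (fun x => (even_two_mul r).pow_nonneg _) hP
      hu hu2) hP1).trans e1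
  have f2 : 1 / P * (∫ τ in (u * P)..(2 * (u * P)), st lev c l τ ^ (2 * r)) ≤
      Cr * B ^ (2 * r) :=
    (mul_le_mul_of_nonneg_left (mono_int (hcc.pow _) (fun x => (even_two_mul r).pow_nonneg _) hP
      hu hu2) hP1).trans e2
  have f3 : 1 / P * (∫ τ in (u * P)..(2 * (u * P)), (st lev b l τ - st lev c l τ) ^ 2) ≤
      C1 * wd ^ 2 := by
    refine le_trans (mul_le_mul_of_nonneg_left (mono_int ((hcb.sub hcc).pow _)
      (fun x => sq_nonneg _) hP hu hu2) hP1) (le_trans (le_of_eq ?_) e3)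
    congr 1
    refine intervalIntegral.integral_congr fun τ _ => ?_
    show (st lev b l τ - st lev c l τ) ^ 2 = st lev (b - c) l τ ^ 2
    rw [st_sub hb hc hl hl0]
  have g1 := win_diff hcb hP hθ hθ2 hu hu2 r e1
  have hu0 : 0 < u := by linarith
  have g2 := pow_avg hcb hcc hP (α := u * P) (β := 2 * (u * P)) (by nlinarith) (by nlinarith) r
    f3 f1 f2
  have g3 : |1 / (u * P) * (∫ τ in (u * P)..(2 * (u * P)), st lev b l τ ^ r) -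
      1 / (u * P) * ∫ τ in (u * P)..(2 * (u * P)), st lev c l τ ^ r| ≤
      r * √(C1 * wd ^ 2) * (3 + Cr * B ^ (2 * r)) := by
    have e4 : 1 / (u * P) * (∫ τ in (u * P)..(2 * (u * P)), st lev b l τ ^ r) -
      1 / (u * P) * (∫ τ in (u * P)..(2 * (u * P)), st lev c l τ ^ r) = 1 / u *
      (1 / P * (∫ τ in (u * P)..(2 * (u * P)), st lev b l τ ^ r) -
        1 / P * ∫ τ in (u * P)..(2 * (u * P)), st lev c l τ ^ r) := by
      field_simp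
    rw [e4, abs_mul, abs_of_pos (by positivity : 0 < 1 / u)]
    have h5 : 1 / u ≤ 1 := by
      rw [div_le_one hu0]
      exact hu
    calc 1 / u * _ ≤ 1 * _ := mul_le_mul_of_nonneg_right h5 (abs_nonneg _)
      _ ≤ _ := by
        rw [one_mul]
        exact g2
  calc _ ≤ _ := abs_sub_le _ (1 / (u * P) * (∫ τ in (u * P)..(2 * (u * P)), st lev b l τ ^ r)) _
    _ ≤ _ := add_le_add g1 g3

theorem UB.get {lev κ : ℕ → ℝ} {R : ℝ} (h : UB lev κ R) {r : ℕ} (hr : 1 ≤ r) :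
    ∃ (C Λ : ℝ) (k0 : ℕ), 0 ≤ C ∧ ∀ k ≥ k0,
    ∀ i : ℕ, Λ ≤ 2 ^ i → (2 : ℝ) ^ i ≤ κ k → ∀ b : ℝ → ℂ, IsAmp b → Sup R b →
      1 / 2 ^ k * (∫ τ in ((2 : ℝ) ^ k)..(4 * (2 : ℝ) ^ k), st lev b (2 ^ i) τ ^ (2 * r)) ≤
        C * W (8 * r) b ^ (2 * r) := by
  obtain ⟨C, Λ, k0, hC, h1⟩ := h r hr 1 4 (by norm_num) (by norm_num)
  refine ⟨C, Λ, k0, hC, fun k hk i hi hi2 b hb hbR => ?_⟩
  have h2 := h1 k hk i hi hi2 b hb hbR
  simp only [Rat.cast_one, one_mul, Rat.cast_ofNat] at h2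
  exact h2

/-- a rational number in `[1, 2]` near a given one -/
theorem rat_near {θ δ : ℝ} (h1 : 1 ≤ θ) (h2 : θ ≤ 2) (hδ : 0 < δ) :
    ∃ u : ℚ, (1 : ℝ) ≤ u ∧ (u : ℝ) ≤ 2 ∧ |θ - u| < δ := by
  have h : max 1 (θ - δ) < min 2 (θ + δ) :=
    max_lt (lt_min (by norm_num) (by linarith)) (lt_min (by linarith) (by linarith))
  obtain ⟨u, hu, hu'⟩ := exists_rat_btwn h
  have h3 := (max_lt_iff.1 hu)
  have h4 := (lt_min_iff.1 hu')
  exact ⟨u, h3.1.le, h4.1.le, abs_lt.2 ⟨by linarith, by linarith⟩⟩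

theorem lim_pt {U : Ultrafilter ℕ} {f : ℕ → ℝ} (hf : ∀ n, f n ∈ Icc (1 : ℝ) 2) :
    ∃ x ∈ Icc (1 : ℝ) 2, Tendsto f U (𝓝 x) := by
  obtain ⟨x, hx, h⟩ := (isCompact_Icc : IsCompact (Icc (1 : ℝ) 2)).ultrafilter_le_nhds (U.map f) (by
    rw [le_principal_iff]
    exact Filter.Eventually.of_forall (f := (U : Filter ℕ)) hf)
  exact ⟨x, hx, h⟩

/-- **The local form**, uniform in the window: the moments over `[θ 2 ^ k, 2 θ 2 ^ k]` of the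
statistic with parameter `s 2 ^ i`, `θ, s ∈ [1, 2]`. -/
theorem unif {A : ℕ → ℝ → ℂ} (hA : Dense A) {lev κ : ℕ → ℝ} (hl : Lev lev)
    (hB : ∀ j, BA lev κ (A j)) {a : ℝ → ℂ} (ha : IsAmp a) (r : ℕ) {ε : ℝ} (hε : 0 < ε) :
    ∃ (Λ : ℝ) (k0 : ℕ), ∀ k ≥ k0, ∀ i : ℕ, Λ ≤ 2 ^ i → (2 : ℝ) ^ i ≤ κ k → ∀ θ s : ℝ, 1 ≤ θ →
      θ ≤ 2 → 1 ≤ s → s ≤ 2 →
      |1 / (θ * 2 ^ k) * (∫ τ in (θ * 2 ^ k)..(2 * (θ * 2 ^ k)), st lev a (s * 2 ^ i) τ ^ r) -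
        gaussMom (vg a) r| ≤ ε := by
  rcases Nat.eq_zero_or_pos r with hr0 | hr0
  · subst hr0
    refine ⟨0, 0, fun k _ i _ _ θ s hθ _ _ _ => ?_⟩
    have hP : (0 : ℝ) < θ * 2 ^ k := by positivity
    have h0 : gaussMom (vg a) 0 = 1 := by
      unfold gaussMom
      simp
    have h1 : 1 / (θ * 2 ^ k) * (∫ τ in (θ * 2 ^ k)..(2 * (θ * 2 ^ k)),
        st lev a (s * 2 ^ i) τ ^ 0) = 1 := by
      simp only [pow_zero, intervalIntegral.integral_const, smul_eq_mul, mul_one]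
      field_simp
      ring
    rw [h0, h1, sub_self, abs_zero]
    exact hε.le
  by_contra hcon
  push Not at hcon
  choose kk hkk ii hii hiiκ θθ ss hθ1 hθ2 hs1 hs2 hbad using fun n : ℕ => hcon n n
  -- support
  obtain ⟨R0, hR0⟩ := exists_sup ha
  set R : ℕ := 2 * R0 with hRdef
  have hRc : (R : ℝ) = 2 * (R0 : ℝ) := by
    rw [hRdef]
    push_cast
    ring
  have hS : ∀ s : ℝ, 1 ≤ s → s ≤ 2 → Sup R (sca s a) := by
    intro s h1 h2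
    rw [hRc]
    exact sca_sup (Nat.cast_nonneg _) hR0 (by linarith) h2
  -- the uniform bounds
  obtain ⟨jc, hjc⟩ := hA.cut R
  have hU : UB lev κ R := ub (Nat.cast_nonneg _) hl (hA.amp jc) hjc (hB jc)
  obtain ⟨C1, Λ1, k1, hC1, h1⟩ := hU.get le_rfl
  obtain ⟨Cr, Λr, kr, hCr, hr⟩ := hU.get hr0
  obtain ⟨B0, hB0, hWB⟩ := W_sca_bdd ha (8 * r)
  obtain ⟨Cs, hCs, hlip⟩ := sca_lip ha (8 * r)
  have hM8 : 8 ≤ 8 * r := by omega
  -- limit points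
  set U : Ultrafilter ℕ := Ultrafilter.of atTop with hUdef
  have hU' : (U : Filter ℕ) ≤ atTop := Ultrafilter.of_le _
  obtain ⟨θ', hθ', hθl⟩ := lim_pt (U := U) (f := θθ) fun n => ⟨hθ1 n, hθ2 n⟩
  obtain ⟨s', hs', hsl⟩ := lim_pt (U := U) (f := ss) fun n => ⟨hs1 n, hs2 n⟩
  -- the choice of `δ`
  set J : ℝ := Cr * (B0 + 1) ^ (2 * r) with hJ
  obtain ⟨η, hη, hηg⟩ := Metric.continuousAt_iff.1 ((gaussMom_cont r).continuousAt (x := vg a))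
    (ε / 8) (by linarith)
  have c1 : ∀ᶠ δ : ℝ in 𝓝[>] 0, 6 * (1 + J) * √(2 * δ) < ε / 8 := by
    have hc : Continuous fun δ : ℝ => 6 * (1 + J) * √(2 * δ) := by fun_prop
    have h0 : (fun δ : ℝ => 6 * (1 + J) * √(2 * δ)) 0 < ε / 8 := by
      simp only [mul_zero, Real.sqrt_zero]
      linarith
    exact (hc.continuousAt.eventually_lt continuousAt_const h0).filter_mono nhdsWithin_le_nhds
  have c2 : ∀ᶠ δ : ℝ in 𝓝[>] 0, r * √(C1 * (2 * δ) ^ 2) * (3 + J) < ε / 8 := by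
    have hc : Continuous fun δ : ℝ => r * √(C1 * (2 * δ) ^ 2) * (3 + J) := by fun_prop
    have h0 : (fun δ : ℝ => r * √(C1 * (2 * δ) ^ 2) * (3 + J)) 0 < ε / 8 := by
      simp only [mul_zero, ne_eq, OfNat.ofNat_ne_zero, not_false_eq_true, zero_pow,
        Real.sqrt_zero, zero_mul]
      linarith
    exact (hc.continuousAt.eventually_lt continuousAt_const h0).filter_mono nhdsWithin_le_nhds
  have c3 : ∀ᶠ δ : ℝ in 𝓝[>] 0, 2 * (R : ℝ) ^ 2 * (2 * B0 + 1) * δ < η := by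
    have hc : Continuous fun δ : ℝ => 2 * (R : ℝ) ^ 2 * (2 * B0 + 1) * δ := by fun_prop
    have h0 : (fun δ : ℝ => 2 * (R : ℝ) ^ 2 * (2 * B0 + 1) * δ) 0 < η := by
      simp only [mul_zero]
      exact hη
    exact (hc.continuousAt.eventually_lt continuousAt_const h0).filter_mono nhdsWithin_le_nhds
  have c4 : ∀ᶠ δ : ℝ in 𝓝[>] 0, δ < 1 :=
    (Filter.Tendsto.eventually_lt_const one_pos tendsto_id).filter_mono nhdsWithin_le_nhds
  have c5 : ∀ᶠ δ : ℝ in 𝓝[>] 0, 0 < δ := eventually_mem_nhdsWithin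
  obtain ⟨δ, ⟨⟨⟨hδ1, hδ2⟩, hδ3⟩, hδ4⟩, hδ⟩ := ((((c1.and c2).and c3).and c4).and c5).exists
  -- the amplitude and the window
  obtain ⟨j, hjR, hjW⟩ := hA.dense R (8 * r) (sca s' a) (sca_amp ha (by linarith [hs'.1]))
    (hS s' hs'.1 hs'.2) δ hδ
  obtain ⟨u, hu1, hu2, huθ⟩ := rat_near hθ'.1 hθ'.2 hδ
  have hu0 : (0 : ℚ) < u := by
    have : (0 : ℝ) < u := by linarith
    exact_mod_cast this
  obtain ⟨Λj, kj, hj⟩ := hB j r u (2 * u) hu0 (by linarith) (ε / 8) (by linarith)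
  have hAj := hA.amp j
  have hs'0 : 0 < s' := by linarith [hs'.1]
  have hWj : W (8 * r) (A j) ≤ B0 + 1 := by
    have h2 := W_le_add (sca_amp ha hs'0) hAj (8 * r)
    have h3 := hWB s' hs'.1 hs'.2
    linarith
  -- the variance
  have hvar : |gaussMom (vg (A j)) r - gaussMom (vg a) r| < ε / 8 := by
    have h2 := vg_lip (sca_amp ha hs'0) hAj (R := R) (Nat.cast_nonneg _) (hS s' hs'.1 hs'.2) hjR
    rw [sca_vg ha hs'0] at h2
    have w1 : W 0 (sca s' a) ≤ B0 :=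
      (W_mono (sca_amp ha hs'0) (Nat.zero_le _)).trans (hWB s' hs'.1 hs'.2)
    have w2 : W 0 (A j) ≤ B0 + 1 := (W_mono hAj (Nat.zero_le _)).trans hWj
    have w3 : W 0 (sca s' a - A j) ≤ δ :=
      (W_mono (amp_sub (sca_amp ha hs'0) hAj) (Nat.zero_le _)).trans hjW.le
    have h3 : |vg a - vg (A j)| ≤ 2 * (R : ℝ) ^ 2 * (2 * B0 + 1) * δ := by
      refine h2.trans ?_
      refine mul_le_mul (mul_le_mul_of_nonneg_left (by linarith) (by positivity)) w3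
        (W_nonneg _ _) (by positivity)
    have h4 := hηg (x := vg (A j)) (by
      rw [Real.dist_eq, abs_sub_comm]
      exact lt_of_le_of_lt h3 hδ3)
    rwa [Real.dist_eq] at h4
  -- eventually
  have d1 : ∀ᶠ n in (U : Filter ℕ), |θθ n - θ'| < δ := by
    have h2 := Metric.tendsto_nhds.1 hθl δ hδ
    simpa only [Real.dist_eq] using h2
  have hδC : 0 < δ / (Cs + 1) := by positivity
  have d2 : ∀ᶠ n in (U : Filter ℕ), |ss n - s'| < δ / (Cs + 1) := by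
    have h2 := Metric.tendsto_nhds.1 hsl _ hδC
    simpa only [Real.dist_eq] using h2
  have d3 : ∀ᶠ n : ℕ in (U : Filter ℕ), max (max Λ1 Λr) Λj ≤ (n : ℝ) :=
    hU' (tendsto_natCast_atTop_atTop.eventually (eventually_ge_atTop _))
  have d4 : ∀ᶠ n in (U : Filter ℕ), max (max k1 kr) kj ≤ n := hU' (eventually_ge_atTop _)
  obtain ⟨n, ⟨⟨hd1, hd2⟩, hd3⟩, hd4⟩ := (((d1.and d2).and d3).and d4).exists
  have hbn := hbad n
  have hd3' := hd3.trans (hii n)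
  have hd4' := hd4.trans (hkk n)
  have hiκ := hiiκ n
  set k := kk n with hk
  set i := ii n with hi
  set θ := θθ n with hθ
  set s := ss n with hs
  have hPk : (0 : ℝ) < 2 ^ k := by positivity
  have hPi : (0 : ℝ) < 2 ^ i := by positivity
  have hθI' : θ ∈ Icc (1 : ℝ) 2 := ⟨hθ1 n, hθ2 n⟩
  have hsI' : s ∈ Icc (1 : ℝ) 2 := ⟨hs1 n, hs2 n⟩
  have hs0 : 0 < s := by linarith [hsI'.1]
  have hΛ1 : Λ1 ≤ (2 : ℝ) ^ i := ((le_max_left _ _).trans (le_max_left _ _)).trans hd3'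
  have hΛr : Λr ≤ (2 : ℝ) ^ i := ((le_max_right _ _).trans (le_max_left _ _)).trans hd3'
  have hΛj : Λj ≤ (2 : ℝ) ^ i := (le_max_right _ _).trans hd3'
  have hk1 : k1 ≤ k := ((le_max_left _ _).trans (le_max_left _ _)).trans hd4'
  have hkr : kr ≤ k := ((le_max_right _ _).trans (le_max_left _ _)).trans hd4'
  have hkj : kj ≤ k := (le_max_right _ _).trans hd4'
  have hWs : W 8 (sca s a - A j) ≤ 2 * δ := by
    have h2 := hlip s s' hsI'.1 hsI'.2 hs'.1 hs'.2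
    have h3 : Cs * |s - s'| ≤ δ := by
      have h4 : Cs * |s - s'| ≤ (Cs + 1) * (δ / (Cs + 1)) :=
        mul_le_mul (by linarith) hd2.le (abs_nonneg _) (by linarith)
      rwa [mul_div_cancel₀ _ (by positivity : Cs + 1 ≠ 0)] at h4
    have h5 := W_tri (sca_amp ha hs0) (sca_amp ha hs'0) hAj (8 * r)
    have h6 := W_mono (amp_sub (sca_amp ha hs0) hAj) hM8
    linarith
  have key := one_step (R := R) (r := r) (C1 := C1) (Cr := Cr) (B := B0 + 1) (wd := 2 * δ)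
    (P := 2 ^ k) (l := 2 ^ i) hl hC1 hCr hPk hPi (h1 k hk1 i hΛ1 hiκ) (hr k hkr i hΛr hiκ)
    (sca_amp ha hs0) hAj (hS s hsI'.1 hsI'.2) hjR ((hWB s hsI'.1 hsI'.2).trans (by linarith)) hWj
    hWs hθI'.1 hθI'.2 hu1 hu2
  have hθu : |θ - u| ≤ 2 * δ := by
    have := abs_sub_le θ θ' u
    linarith
  have hJ0 : 0 ≤ J := by positivity
  have hsq : 6 * (1 + J) * √|θ - u| ≤ 6 * (1 + J) * √(2 * δ) :=
    mul_le_mul_of_nonneg_left (Real.sqrt_le_sqrt hθu) (by positivity)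
  have key2 := hj k hkj i hΛj hiκ
  have e1 : 1 / (θ * 2 ^ k) * (∫ τ in (θ * 2 ^ k)..(2 * (θ * 2 ^ k)),
      st lev a (s * 2 ^ i) τ ^ r) =
      1 / (θ * 2 ^ k) * ∫ τ in (θ * 2 ^ k)..(2 * (θ * 2 ^ k)), st lev (sca s a) (2 ^ i) τ ^ r := by
    congr 1
    refine intervalIntegral.integral_congr fun τ _ => ?_
    show st lev a (s * 2 ^ i) τ ^ r = st lev (sca s a) (2 ^ i) τ ^ r
    rw [sca_st ha hs0 lev hPi]
  have e2 : 1 / ((((2 * u : ℚ) : ℝ) - u) * 2 ^ k) * (∫ τ in ((u : ℝ) * 2 ^ k)..(((2 * u : ℚ) : ℝ) *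
      2 ^ k), st lev (A j) (2 ^ i) τ ^ r) = 1 / (u * 2 ^ k) *
      ∫ τ in ((u : ℝ) * 2 ^ k)..(2 * (u * 2 ^ k)), st lev (A j) (2 ^ i) τ ^ r := by
    push_cast
    congr 2
    · ring
    · ring
  rw [e2] at key2
  rw [e1] at hbn
  have a1 := abs_sub_le (1 / (θ * 2 ^ k) * ∫ τ in (θ * 2 ^ k)..(2 * (θ * 2 ^ k)),
    st lev (sca s a) (2 ^ i) τ ^ r) (1 / (u * 2 ^ k) *
      ∫ τ in ((u : ℝ) * 2 ^ k)..(2 * (u * 2 ^ k)), st lev (A j) (2 ^ i) τ ^ r)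
      (gaussMom (vg a) r)
  have a2 := abs_sub_le (1 / (u * 2 ^ k) *
      ∫ τ in ((u : ℝ) * 2 ^ k)..(2 * (u * 2 ^ k)), st lev (A j) (2 ^ i) τ ^ r)
      (gaussMom (vg (A j)) r) (gaussMom (vg a) r)
  linarith

/-- The moments over `[T, 2 T]`, all windows. -/
theorem core {A : ℕ → ℝ → ℂ} (hA : Dense A) {lev κ : ℕ → ℝ} (hl : Lev lev)
    (hB : ∀ j, BA lev κ (A j)) {L : ℝ → ℝ} (hL : Tendsto L atTop atTop)
    (hLκ : ∀ᶠ T in atTop, L T ≤ κ (dk T)) {a : ℝ → ℂ} (ha : IsAmp a) (r : ℕ) :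
    Tendsto (fun T => (1 / T) * ∫ τ in T..2 * T, st lev a (L T) τ ^ r) atTop
      (𝓝 (gaussMom (vg a) r)) := by
  rw [Metric.tendsto_nhds]
  intro ε hε
  obtain ⟨Λ, k0, h⟩ := unif hA hl hB ha r (half_pos hε)
  have hθI : ∀ x : ℝ, 1 ≤ x → x / 2 ^ dk x ∈ Icc (1 : ℝ) 2 := by
    intro x hx
    have hp : (0 : ℝ) < 2 ^ dk x := by positivity
    refine ⟨(one_le_div hp).2 (dk_le hx), (div_le_iff₀ hp).2 (dk_lt hx).le⟩
  have d1 : ∀ᶠ T in atTop, k0 ≤ dk T := dk_tendsto.eventually (eventually_ge_atTop _)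
  have hpow : Tendsto (fun T => (2 : ℝ) ^ dk (L T)) atTop atTop :=
    (tendsto_pow_atTop_atTop_of_one_lt (by norm_num : (1 : ℝ) < 2)).comp (dk_tendsto.comp hL)
  filter_upwards [d1, hpow.eventually (eventually_ge_atTop Λ), hLκ, eventually_ge_atTop 1,
    hL.eventually (eventually_ge_atTop 1)] with T hk hi hκ hT hLT
  have h1 := h (dk T) hk (dk (L T)) hi ((dk_le hLT).trans hκ) (T / 2 ^ dk T)
    (L T / 2 ^ dk (L T)) (hθI T hT).1 (hθI T hT).2 (hθI _ hLT).1 (hθI _ hLT).2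
  have e1 : T / 2 ^ dk T * 2 ^ dk T = T := by field_simp
  have e2 : L T / 2 ^ dk (L T) * 2 ^ dk (L T) = L T := by field_simp
  rw [e1, e2] at h1
  rw [Real.dist_eq]
  exact lt_of_le_of_lt h1 (half_lt_self hε)

theorem from_blocks_f : ∃ A : ℕ → ℝ → ℂ, (∀ j, IsAmp (A j)) ∧ ∀ lev κ : ℕ → ℝ, Lev lev →
    (∀ j, BA lev κ (A j)) → ∀ L : ℝ → ℝ, Tendsto L atTop atTop →
    (∀ᶠ T in atTop, L T ≤ κ (dk T)) → ∀ a : ℝ → ℂ, IsAmp a → ∀ r : ℕ,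
      Tendsto (fun T => (1 / T) * ∫ τ in T..2 * T, st lev a (L T) τ ^ r) atTop
        (𝓝 (gaussMom (vg a) r)) := by
  obtain ⟨A, hA⟩ := exists_dense
  exact ⟨A, hA.amp, fun lev κ hl hB L hL hLκ a ha r => core hA hl hB hL hLκ ha r⟩

end FB23
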