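import Pool.Agent.LibFB23.Fin

/-!
# The interface `from_blocks` of BE35 (all windows `L ≤ K log T`)
-/

open MeasureTheory Set Filter Topology
open scoped ContDiff

namespace FB23

open FG33 GWin Mes

/-- the hypothesis `B35.BK`, word for word -/
def BKd (lev : ℕ → ℝ) (A : ℕ → ℝ → ℂ) : Prop :=
  ∀ (j r K : ℕ) (u v : ℚ), 0 < u → u < v → ∀ ε : ℝ, 0 < ε → ∃ (Λ : ℝ) (k0 : ℕ), ∀ k ≥ k0,
    ∀ i : ℕ, Λ ≤ 2 ^ i → (2 : ℝ) ^ i ≤ K * k →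
      |1 / (((v : ℝ) - u) * 2 ^ k) * (∫ τ in ((u : ℝ) * 2 ^ k)..((v : ℝ) * 2 ^ k),
        GWin.st lev (A j) (2 ^ i) τ ^ r) - gaussMom (GWin.vg (A j)) r| ≤ ε

theorem from_blocks' : ∃ A : ℕ → ℝ → ℂ, (∀ j, FG33.IsAmp (A j)) ∧ ∀ lev : ℕ → ℝ, GWin.Lev lev →
    BKd lev A → ∀ L : ℝ → ℝ, Tendsto L atTop atTop →
    (∃ K : ℝ, ∀ᶠ T in atTop, L T ≤ K * Real.log T) → ∀ a : ℝ → ℂ, FG33.IsAmp a → ∀ r : ℕ,
      Tendsto (fun T => (1 / T) * ∫ τ in T..2 * T, GWin.st lev a (L T) τ ^ r) atTop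
        (𝓝 (gaussMom (GWin.vg a) r)) := by
  obtain ⟨A, hA, h⟩ := from_blocks_f
  refine ⟨A, hA, fun lev hl hB L hL hK a ha r => ?_⟩
  obtain ⟨K, hK⟩ := hK
  obtain ⟨n, hn⟩ := exists_nat_ge K
  refine h lev (fun k => n * k) hl (fun j r u v hu huv ε hε => hB j r n u v hu huv ε hε) L hL ?_
    a ha r
  filter_upwards [hK, log_le_dk, eventually_ge_atTop 1] with T h1 h2 h3
  have h4 : 0 ≤ Real.log T := Real.log_nonneg h3
  calc L T ≤ K * Real.log T := h1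
    _ ≤ n * Real.log T := mul_le_mul_of_nonneg_right hn h4
    _ ≤ n * dk T := mul_le_mul_of_nonneg_left h2 (Nat.cast_nonneg _)

end FB23
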