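import Pool.Agent.LibFB23.Defs

/-!
# Row R1: linearity (SHORT, 20 min)

`IsAmp` is closed under `+`, `-` and multiplication with real numbers; `tf` is additive (the
integrands are continuous with compact support, hence integrable; `integral_sub`, `Complex.sub_re`);
`st` is additive (`GWin.term_summable`, `GWin.tf_int` in LibGWa/U3, U1).
-/

open MeasureTheory Set Filter Topology
open scoped ContDiff

namespace FB23

open FG33 GWin Mes

variable {a b : ℝ → ℂ}

private theorem R1_int (ha : IsAmp a) (y : ℝ) :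
    Integrable fun t : ℝ => a t * Complex.exp (Complex.I * (t * y : ℝ)) := by
  have hc : Continuous fun t : ℝ => a t * Complex.exp (Complex.I * (t * y : ℝ)) := by
    have h1 := ha.smooth.continuous
    have h2 : Continuous fun t : ℝ => Complex.exp (Complex.I * (t * y : ℝ)) := by fun_prop
    exact h1.mul h2
  exact hc.integrable_of_hasCompactSupport ha.supp.mul_right

private theorem R1_neg (hb : IsAmp b) : IsAmp (-b) := by
  refine ⟨hb.smooth.neg, ?_, fun t => ?_⟩
  · have h1 : (-b) = fun t => (-1 : ℂ) * b t := by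
      funext t
      simp
    rw [h1]
    exact hb.supp.mul_left
  · rw [Pi.neg_apply, Pi.neg_apply, hb.herm t, map_neg]

theorem amp_add (ha : IsAmp a) (hb : IsAmp b) : IsAmp (a + b) := by
  refine ⟨ha.smooth.add hb.smooth, ha.supp.add hb.supp, fun t => ?_⟩
  rw [Pi.add_apply, Pi.add_apply, ha.herm t, hb.herm t, map_add]

theorem amp_sub (ha : IsAmp a) (hb : IsAmp b) : IsAmp (a - b) := by
  rw [sub_eq_add_neg]
  exact amp_add ha (R1_neg hb)

theorem tf_add (ha : IsAmp a) (hb : IsAmp b) (y : ℝ) : tf (a + b) y = tf a y + tf b y := by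
  unfold tf
  rw [← Complex.add_re, ← integral_add (R1_int ha y) (R1_int hb y)]
  congr 2
  funext t
  rw [Pi.add_apply, add_mul]

theorem tf_sub (ha : IsAmp a) (hb : IsAmp b) (y : ℝ) : tf (a - b) y = tf a y - tf b y := by
  unfold tf
  rw [← Complex.sub_re, ← integral_sub (R1_int ha y) (R1_int hb y)]
  congr 2
  funext t
  rw [Pi.sub_apply, sub_mul]

theorem st_sub (ha : IsAmp a) (hb : IsAmp b) {lev : ℕ → ℝ} (hl : Lev lev) {L : ℝ} (hL : 0 < L)
    (τ : ℝ) : st lev (a - b) L τ = st lev a L τ - st lev b L τ := by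
  unfold st
  have h1 : (fun y => tf (a - b) y) = fun y => tf a y - tf b y := funext fun y => tf_sub ha hb y
  have h2 : (∑' k, tf (a - b) (L * (lev k - τ))) =
      ∑' k, tf a (L * (lev k - τ)) - ∑' k, tf b (L * (lev k - τ)) := by
    rw [← (term_summable ha hl hL τ).tsum_sub (term_summable hb hl hL τ)]
    exact tsum_congr fun k => tf_sub ha hb _
  rw [h2, h1, integral_sub (tf_int ha) (tf_int hb)]
  ring

theorem sup_sub {R : ℝ} (ha : Sup R a) (hb : Sup R b) : Sup R (a - b) := by
  intro t ht
  rw [Pi.sub_apply, ha t ht, hb t ht, sub_zero]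

end FB23
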