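import Pool.Agent.LibFB23.Defs

/-!
# Row R10: the crude bound (SHORT, 15 min)

`GWin.term_bound`, `GWin.zsum`, `GWin.tf_decay` (`min 1 L = 1`), `tsum_of_norm_bounded`; the Weyl term is
`≤ |τ| |∫ tf a|`.
-/

open MeasureTheory Set Filter Topology
open scoped ContDiff

namespace FB23

open FG33 GWin Mes

theorem crude {a : ℝ → ℂ} (ha : IsAmp a) {lev : ℕ → ℝ} (hl : Lev lev) : ∃ C : ℝ, 0 ≤ C ∧
    ∀ L τ : ℝ, 1 ≤ L → |st lev a L τ| ≤ C * (1 + |τ|) ^ 4 := by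
  obtain ⟨B, hB, hb⟩ := tf_decay ha
  have hZ : 0 ≤ ∑' n, 1 / (lev n + 1) ^ 4 := tsum_nonneg fun n => by
    have := hl.nn n
    positivity
  refine ⟨B * (∑' n, 1 / (lev n + 1) ^ 4) + |∫ y, tf a y|, by positivity, ?_⟩
  intro L τ hL
  have hL0 : 0 < L := by linarith
  have hmin : min 1 L = 1 := min_eq_left hL
  have key : ∀ n, ‖tf a (L * (lev n - τ))‖ ≤ B * (1 + |τ|) ^ 4 * (1 / (lev n + 1) ^ 4) := by
    intro n
    have h := term_bound hB hb hl hL0 τ n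
    rw [hmin, div_one] at h
    rwa [Real.norm_eq_abs]
  have hs := (zsum hl).mul_left (B * (1 + |τ|) ^ 4)
  have h1 := tsum_of_norm_bounded hs.hasSum key
  rw [Real.norm_eq_abs, tsum_mul_left] at h1
  have h2 : |τ / (2 * Real.pi * L) * ∫ y, tf a y| ≤ |∫ y, tf a y| * (1 + |τ|) ^ 4 := by
    rw [abs_mul, mul_comm]
    refine mul_le_mul_of_nonneg_left ?_ (abs_nonneg _)
    have h3 : (1 : ℝ) ≤ 2 * Real.pi * L := by
      have := Real.pi_gt_three
      nlinarith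
    rw [abs_div, abs_of_pos (by linarith : 0 < 2 * Real.pi * L)]
    have h4 := abs_nonneg τ
    calc |τ| / (2 * Real.pi * L) ≤ |τ| := div_le_self h4 h3
      _ ≤ 1 + |τ| := by linarith
      _ ≤ (1 + |τ|) ^ 4 := le_self_pow₀ (by linarith) (by norm_num)
  unfold st
  refine (abs_sub _ _).trans ?_
  calc _ ≤ B * (1 + |τ|) ^ 4 * (∑' n, 1 / (lev n + 1) ^ 4) +
      |∫ y, tf a y| * (1 + |τ|) ^ 4 := add_le_add h1 h2
    _ = _ := by ring

/-- joint continuity in the shift -/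
theorem st_shift_cont {a : ℝ → ℂ} (ha : IsAmp a) {lev : ℕ → ℝ} (hl : Lev lev) {L : ℝ}
    (hL : 0 < L) : Continuous fun p : ℝ × ℝ => st lev a L (p.2 + p.1 / L) := by
  have h := st_cont ha hl hL
  exact h.comp (by fun_prop)

end FB23
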