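import Pool.Agent.LibFB23.R10

/-!
# Row R12a: the moments of the shifted statistic of one amplitude (MEDIUM, 40 min)

`P = 2^k`, `L = 2^i`.  Substitute `τ + y / L` (`intervalIntegral.integral_comp_add_right`).
* `|y| / L ≤ u P / 2`: the shifted block is contained in `[(u / 2) P, (v + u) P]`; the integrand is
  nonnegative, so the integral is at most the one over this block, and `BA` with `2 r`, `u / 2`, `v + u`,
  `ε = 1` bounds it by `(v + u / 2) (gaussMom (vg χ) (2 r) + 1) P`.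
* `|y| / L > u P / 2` and `L ≥ 1`: `P ≤ 2 |y| / u`, every point `τ'` of the shifted block has
  `|τ'| ≤ v P + |y| ≤ (2 v / u + 1) |y|`, and R10 `crude` gives `|st| ≤ C (1 + (2 v / u + 1) |y|)^4
  ≤ C' (1 + |y|)^4`; take the power `2 r`.
(take `Λ ≥ 1`, so that `L ≥ 1`; `L ≥ 1` holds anyway.)
-/

open MeasureTheory Set Filter Topology
open scoped ContDiff

namespace FB23

open FG33 GWin Mes

theorem mom_shift {lev κ : ℕ → ℝ} {χ : ℝ → ℂ} (hl : Lev lev) (hχ : IsAmp χ) (hB : BA lev κ χ)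
    (r : ℕ) {u v : ℚ} (hu : 0 < u) (huv : u < v) : ∃ (C Λ : ℝ) (k0 : ℕ), 0 ≤ C ∧ ∀ k ≥ k0,
    ∀ i : ℕ, Λ ≤ 2 ^ i → (2 : ℝ) ^ i ≤ κ k → ∀ y : ℝ,
      1 / 2 ^ k * (∫ τ in ((u : ℝ) * 2 ^ k)..((v : ℝ) * 2 ^ k),
        st lev χ (2 ^ i) (τ + y / 2 ^ i) ^ (2 * r)) ≤ C * (1 + |y|) ^ (8 * r) := by
  obtain ⟨C0, hC0, hcr⟩ := crude hχ hl
  have hu' : (0 : ℝ) < u := by exact_mod_cast hu
  have huv' : (u : ℝ) < v := by exact_mod_cast huv
  have hv' : (0 : ℝ) < v := hu'.trans huv'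
  obtain ⟨Λ, k0, hBA⟩ := hB (2 * r) (u / 2) (v + u) (by positivity) (by linarith) 1 one_pos
  set K : ℝ := 2 * v / u + 1 with hK
  have hK1 : 1 ≤ K := by
    have : 0 ≤ 2 * (v : ℝ) / u := by positivity
    rw [hK]
    linarith
  set C1 : ℝ := ((v : ℝ) + u / 2) * (|gaussMom (vg χ) (2 * r)| + 1) with hC1
  set C2 : ℝ := (v - u) * (C0 * K ^ 4) ^ (2 * r) with hC2
  have hC1' : 0 ≤ C1 := by positivity
  have hC2' : 0 ≤ C2 := mul_nonneg (by linarith) (by positivity)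
  refine ⟨C1 + C2, Λ, k0, by positivity, fun k hk i hi1 hi2 y => ?_⟩
  have hP : (0 : ℝ) < 2 ^ k := by positivity
  have hL1 : (1 : ℝ) ≤ 2 ^ i := one_le_pow₀ (by norm_num)
  have hL0 : (0 : ℝ) < 2 ^ i := by positivity
  have hy0 := abs_nonneg y
  have h1y : (1 : ℝ) ≤ (1 + |y|) ^ (8 * r) := one_le_pow₀ (by linarith)
  have hcont : Continuous fun τ => st lev χ (2 ^ i) τ ^ (2 * r) := by
    have h1 := (st_shift_cont hχ hl hL0).comp (Continuous.prodMk_right (0 : ℝ))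
    have h2 : ((fun p : ℝ × ℝ => st lev χ (2 ^ i) (p.2 + p.1 / 2 ^ i)) ∘ fun τ : ℝ =>
        ((0 : ℝ), τ)) = fun τ => st lev χ (2 ^ i) τ := by
      funext τ
      simp
    rw [h2] at h1
    exact h1.pow _
  have hnn : ∀ τ, 0 ≤ st lev χ (2 ^ i) τ ^ (2 * r) := fun τ =>
    Even.pow_nonneg (even_two_mul r) _
  rcases le_or_gt (|y| / 2 ^ i) (u * 2 ^ k / 2) with hcase | hcase
  · have h1 : (∫ τ in ((u : ℝ) * 2 ^ k)..((v : ℝ) * 2 ^ k),
        st lev χ (2 ^ i) (τ + y / 2 ^ i) ^ (2 * r)) =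
        ∫ τ in ((u : ℝ) * 2 ^ k + y / 2 ^ i)..((v : ℝ) * 2 ^ k + y / 2 ^ i),
          st lev χ (2 ^ i) τ ^ (2 * r) :=
      intervalIntegral.integral_comp_add_right (fun τ => st lev χ (2 ^ i) τ ^ (2 * r)) (y / 2 ^ i)
    have hyL : |y / 2 ^ i| ≤ u * 2 ^ k / 2 := by
      rw [abs_div, abs_of_pos hL0]
      exact hcase
    have hyL' := abs_le.1 hyL
    have h2 : (∫ τ in ((u : ℝ) * 2 ^ k + y / 2 ^ i)..((v : ℝ) * 2 ^ k + y / 2 ^ i),
          st lev χ (2 ^ i) τ ^ (2 * r)) ≤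
        ∫ τ in (((u / 2 : ℚ) : ℝ) * 2 ^ k)..(((v + u : ℚ) : ℝ) * 2 ^ k),
          st lev χ (2 ^ i) τ ^ (2 * r) := by
      push_cast
      refine intervalIntegral.integral_mono_interval ?_ ?_ ?_
        (Eventually.of_forall fun τ => hnn τ) (hcont.intervalIntegrable _ _)
      · linarith [hyL'.1]
      · have : (u : ℝ) * 2 ^ k ≤ v * 2 ^ k := mul_le_mul_of_nonneg_right huv'.le hP.le
        linarith
      · have : 0 < (u : ℝ) * 2 ^ k := by positivity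
        linarith [hyL'.2]
    have h3 := (abs_le.1 (hBA k hk i hi1 hi2)).2
    set I : ℝ := ∫ τ in (((u / 2 : ℚ) : ℝ) * 2 ^ k)..(((v + u : ℚ) : ℝ) * 2 ^ k),
          st lev χ (2 ^ i) τ ^ (2 * r) with hI
    have h4 : ((((v + u : ℚ) : ℝ) - ((u / 2 : ℚ) : ℝ)) * 2 ^ k) = ((v : ℝ) + u / 2) * 2 ^ k := by
      push_cast
      ring
    rw [h4] at h3
    have h5 : 1 / (((v : ℝ) + u / 2) * 2 ^ k) * I ≤ |gaussMom (vg χ) (2 * r)| + 1 := by
      linarith [le_abs_self (gaussMom (vg χ) (2 * r))]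
    have h6 : 1 / 2 ^ k * I ≤ C1 := by
      have h7 : 1 / 2 ^ k * I = ((v : ℝ) + u / 2) * (1 / (((v : ℝ) + u / 2) * 2 ^ k) * I) := by
        field_simp
      rw [h7, hC1]
      exact mul_le_mul_of_nonneg_left h5 (by positivity)
    rw [h1]
    calc 1 / 2 ^ k * _ ≤ 1 / 2 ^ k * I := mul_le_mul_of_nonneg_left h2 (by positivity)
      _ ≤ C1 * 1 := by rw [mul_one]; exact h6
      _ ≤ (C1 + C2) * (1 + |y|) ^ (8 * r) :=
        mul_le_mul (by linarith) h1y zero_le_one (by positivity)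
  · have hyL : |y| / 2 ^ i ≤ |y| := div_le_self hy0 hL1
    have hPy : (2 : ℝ) ^ k ≤ 2 * |y| / u := by
      rw [le_div_iff₀ hu']
      nlinarith
    have hb : ∀ τ ∈ uIoc ((u : ℝ) * 2 ^ k) ((v : ℝ) * 2 ^ k),
        ‖st lev χ (2 ^ i) (τ + y / 2 ^ i) ^ (2 * r)‖ ≤
          (C0 * K ^ 4) ^ (2 * r) * (1 + |y|) ^ (8 * r) := by
      intro τ hτ
      rw [uIoc_of_le (mul_le_mul_of_nonneg_right huv'.le hP.le)] at hτ
      have hτ0 : 0 < τ := lt_trans (by positivity) hτ.1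
      have h1 : |τ + y / 2 ^ i| ≤ K * |y| := by
        refine (abs_add_le _ _).trans ?_
        rw [abs_of_pos hτ0, abs_div, abs_of_pos hL0]
        have h2 : τ ≤ v * (2 * |y| / u) := hτ.2.trans (mul_le_mul_of_nonneg_left hPy hv'.le)
        have h3 : (v : ℝ) * (2 * |y| / u) = 2 * v / u * |y| := by ring
        rw [hK, add_mul, one_mul]
        linarith
      have h2 : 1 + |τ + y / 2 ^ i| ≤ K * (1 + |y|) := by
        rw [mul_add, mul_one]
        linarith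
      have h3 := hcr (2 ^ i) (τ + y / 2 ^ i) hL1
      have h4 : |st lev χ (2 ^ i) (τ + y / 2 ^ i)| ≤ C0 * K ^ 4 * (1 + |y|) ^ 4 := by
        refine h3.trans ?_
        rw [mul_assoc, ← mul_pow]
        exact mul_le_mul_of_nonneg_left (pow_le_pow_left₀ (by positivity) h2 4) hC0
      rw [Real.norm_eq_abs, abs_pow]
      refine (pow_le_pow_left₀ (abs_nonneg _) h4 (2 * r)).trans (le_of_eq ?_)
      rw [mul_pow, ← pow_mul]
      congr 2
      ring
    have h5 := intervalIntegral.norm_integral_le_of_norm_le_const hb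
    rw [Real.norm_eq_abs] at h5
    have h6 : |(v : ℝ) * 2 ^ k - u * 2 ^ k| = (v - u) * 2 ^ k := by
      rw [← sub_mul, abs_of_nonneg]
      exact mul_nonneg (by linarith) hP.le
    rw [h6] at h5
    calc 1 / 2 ^ k * (∫ τ in ((u : ℝ) * 2 ^ k)..((v : ℝ) * 2 ^ k),
          st lev χ (2 ^ i) (τ + y / 2 ^ i) ^ (2 * r))
        ≤ 1 / 2 ^ k * ((C0 * K ^ 4) ^ (2 * r) * (1 + |y|) ^ (8 * r) * ((v - u) * 2 ^ k)) :=
          mul_le_mul_of_nonneg_left ((le_abs_self _).trans h5) (by positivity)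
      _ = C2 * (1 + |y|) ^ (8 * r) := by
          rw [hC2]
          field_simp
      _ ≤ (C1 + C2) * (1 + |y|) ^ (8 * r) :=
          mul_le_mul_of_nonneg_right (by linarith) (by positivity)

end FB23
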