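import Pool.Agent.LibFB23.Defs

/-!
# Row R3: scaling (SHORT/MEDIUM, 30 min)

`tf (sca s a) y = tf a (s y)` (substitution `t = s x`, `integral_comp_div` or
`Measure.integral_comp_div`; compare `GWin.sc_int` in LibGWa/U2), hence
`st lev a (s L) τ = st lev (sca s a) L τ` (also `∫ tf a (s y) dy = s⁻¹ ∫ tf a`), and
`vg (sca s a) = vg a` (substitution in `∫ over Ioi 0`: `integral_comp_div_Ioi` /
`MeasureTheory.integral_comp_mul_left_Ioi`).
-/

open MeasureTheory Set Filter Topology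
open scoped ContDiff

namespace FB23

open FG33 GWin Mes

variable {a : ℝ → ℂ} {s : ℝ}

theorem sca_amp (ha : IsAmp a) (hs : 0 < s) : IsAmp (sca s a) := by
  refine ⟨?_, ?_, ?_⟩
  · unfold sca
    exact contDiff_const.mul (ha.smooth.comp (contDiff_id.div_const s))
  · have h2 : HasCompactSupport fun t : ℝ => a (t / s) := by
      have h3 := ha.supp.comp_homeomorph (Homeomorph.mulRight₀ s⁻¹ (inv_ne_zero hs.ne'))
      simpa [div_eq_mul_inv, Function.comp_def] using h3
    have := h2.mul_left (f := fun _ : ℝ => ((s⁻¹ : ℝ) : ℂ))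
    exact this
  · intro t
    unfold sca
    rw [neg_div, ha.herm, map_mul, Complex.conj_ofReal]

theorem sca_tf (ha : IsAmp a) (hs : 0 < s) (y : ℝ) : tf (sca s a) y = tf a (s * y) := by
  unfold tf
  congr 1
  have h1 : (fun t : ℝ => sca s a t * Complex.exp (Complex.I * (t * y : ℝ)))
      = fun t : ℝ => (fun u : ℝ => ((s⁻¹ : ℝ) : ℂ) *
        (a u * Complex.exp (Complex.I * (u * (s * y) : ℝ)))) (t / s) := by
    ext t
    unfold sca
    dsimp only
    rw [mul_assoc]
    congr 4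
    have := hs.ne'
    field_simp
  rw [h1, Measure.integral_comp_div (fun u : ℝ => ((s⁻¹ : ℝ) : ℂ) *
    (a u * Complex.exp (Complex.I * (u * (s * y) : ℝ)))) s, integral_const_mul, abs_of_pos hs,
    Complex.real_smul, ← mul_assoc, ← Complex.ofReal_mul, mul_inv_cancel₀ hs.ne',
    Complex.ofReal_one, one_mul]

theorem sca_st (ha : IsAmp a) (hs : 0 < s) (lev : ℕ → ℝ) {L : ℝ} (hL : 0 < L) (τ : ℝ) :
    st lev a (s * L) τ = st lev (sca s a) L τ := by
  unfold st
  have h1 : (∫ y, tf (sca s a) y) = s⁻¹ * ∫ y, tf a y := by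
    have h2 : (fun y => tf (sca s a) y) = fun y => tf a (s * y) := by
      ext y
      exact sca_tf ha hs y
    rw [h2, Measure.integral_comp_mul_left, abs_of_pos (inv_pos.2 hs), smul_eq_mul]
  rw [h1]
  have h3 : (fun k => tf a (s * L * (lev k - τ))) = fun k => tf (sca s a) (L * (lev k - τ)) := by
    ext k
    rw [sca_tf ha hs, mul_assoc]
  rw [h3]
  congr 1
  have h4 := hs.ne'
  have h5 := hL.ne'
  have h6 := Real.pi_ne_zero
  field_simp

theorem sca_vg (ha : IsAmp a) (hs : 0 < s) : vg (sca s a) = vg a := by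
  unfold vg
  congr 1
  have h1 : (fun t : ℝ => t * ‖sca s a t‖ ^ 2) =
      fun t : ℝ => s⁻¹ * (fun u : ℝ => u * ‖a u‖ ^ 2) (s⁻¹ * t) := by
    ext t
    unfold sca
    dsimp only
    rw [norm_mul, Complex.norm_real, Real.norm_eq_abs, abs_of_pos (inv_pos.2 hs), mul_pow,
      div_eq_inv_mul]
    ring
  have h2 := integral_comp_mul_left_Ioi (fun u : ℝ => u * ‖a u‖ ^ 2) 0 (inv_pos.2 hs)
  rw [h1, integral_const_mul, h2, mul_zero,
    smul_eq_mul, inv_inv, ← mul_assoc, inv_mul_cancel₀ hs.ne', one_mul]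

theorem sca_sup {R : ℝ} (hR : 0 ≤ R) (ha : Sup R a) (hs : 0 < s) (hs2 : s ≤ 2) :
    Sup (2 * R) (sca s a) := by
  intro t ht
  unfold sca
  rw [ha (t / s) ?_, mul_zero]
  rw [abs_div, abs_of_pos hs, lt_div_iff₀ hs]
  nlinarith

end FB23
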