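import Pool.Agent.LibFB23.R1

/-!
# Row R4: the weighted norm (SHORT/MEDIUM, 30 min)

`tf b y` is the real part of a Schwartz function at `- y / (2 π)` (`GWin.tf_eq_fourier`, LibGWa/U1), so
`|tf b y| (1 + |y|)^(M + 2)` is bounded (compare the proof of `GWin.tf_decay`, which does `M = 2`),
and `(1 + |y|)^(-2)` is integrable (`integrable_one_add_norm`).
-/

open MeasureTheory Set Filter Topology
open scoped ContDiff

namespace FB23

open FG33 GWin Mes

variable {a b : ℝ → ℂ}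

theorem tf_dec (hb : IsAmp b) (M : ℕ) : ∃ B : ℝ, 0 < B ∧ ∀ y, |tf b y| ≤ B / (1 + |y|) ^ M := by
  set S := FourierTransform.fourier (hb.supp.toSchwartzMap hb.smooth) with hS
  set C := 2 ^ M * (Finset.Iic (M, 0)).sup (fun m : ℕ × ℕ => SchwartzMap.seminorm ℝ m.1 m.2) S
    with hC
  have h1 : ∀ x : ℝ, (1 + ‖x‖) ^ M * ‖S x‖ ≤ C := by
    intro x
    have := SchwartzMap.one_add_le_sup_seminorm_apply (𝕜 := ℝ) (m := (M, 0)) (k := M) (n := 0)
      le_rfl le_rfl S x
    simpa using this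
  have hC0 : 0 ≤ C := le_trans (by positivity) (h1 0)
  have hpi := Real.pi_gt_three
  refine ⟨(2 * Real.pi) ^ M * (C + 1), by positivity, fun y => ?_⟩
  have h2 := h1 (-(y / (2 * Real.pi)))
  rw [tf_eq_fourier hb, le_div_iff₀ (by positivity)]
  have h3 : |(S (-(y / (2 * Real.pi)))).re| ≤ ‖S (-(y / (2 * Real.pi)))‖ := Complex.abs_re_le_norm _
  have h4 : 1 + |y| ≤ (2 * Real.pi) * (1 + ‖-(y / (2 * Real.pi))‖) := by
    rw [norm_neg, norm_div, Real.norm_eq_abs, Real.norm_eq_abs, abs_of_pos (by positivity :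
      0 < 2 * Real.pi)]
    have h5 : 2 * Real.pi * (1 + |y| / (2 * Real.pi)) = 2 * Real.pi + |y| := by
      field_simp
    rw [h5]
    linarith
  calc |(S (-(y / (2 * Real.pi)))).re| * (1 + |y|) ^ M
      ≤ ‖S (-(y / (2 * Real.pi)))‖ * ((2 * Real.pi) * (1 + ‖-(y / (2 * Real.pi))‖)) ^ M := by gcongr
    _ = (2 * Real.pi) ^ M * ((1 + ‖-(y / (2 * Real.pi))‖) ^ M * ‖S (-(y / (2 * Real.pi)))‖) := by
        rw [mul_pow]
        ring
    _ ≤ (2 * Real.pi) ^ M * C := by gcongr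
    _ ≤ _ := by nlinarith [show (0:ℝ) < (2 * Real.pi) ^ M by positivity]

theorem W_int (hb : IsAmp b) (M : ℕ) : Integrable fun y => |tf b y| * (1 + |y|) ^ M := by
  obtain ⟨B, hB, hb'⟩ := tf_dec hb (M + 2)
  have h1 : Integrable fun x : ℝ => B * (1 + ‖x‖) ^ (-(2 : ℝ)) :=
    (integrable_one_add_norm (μ := (volume : Measure ℝ)) (by simp)).const_mul B
  refine h1.mono' ((tf_cont hb).abs.mul
    ((continuous_const.add continuous_abs).pow M)).aestronglyMeasurable
    (Eventually.of_forall fun x => ?_)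
  have h0 : 0 < 1 + |x| := by have := abs_nonneg x; linarith
  rw [Real.norm_eq_abs, abs_mul, abs_abs, abs_of_nonneg (pow_nonneg h0.le M)]
  refine (mul_le_mul_of_nonneg_right (hb' x) (pow_nonneg h0.le M)).trans (le_of_eq ?_)
  rw [Real.rpow_neg (by positivity), Real.norm_eq_abs]
  norm_cast
  rw [pow_add]
  field_simp

theorem W_nonneg (M : ℕ) (b : ℝ → ℂ) : 0 ≤ W M b := by
  unfold W
  exact integral_nonneg fun y => mul_nonneg (abs_nonneg _)
    (pow_nonneg (by have := abs_nonneg y; linarith) _)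

theorem W_mono (hb : IsAmp b) {M N : ℕ} (h : M ≤ N) : W M b ≤ W N b := by
  unfold W
  refine integral_mono (W_int hb M) (W_int hb N) fun y => ?_
  exact mul_le_mul_of_nonneg_left
    (pow_le_pow_right₀ (by have := abs_nonneg y; linarith) h) (abs_nonneg _)

theorem R4_le {c : ℝ → ℂ} (ha : IsAmp a) (hb : IsAmp b) (hc : IsAmp c) (M : ℕ)
    (h : ∀ y, |tf c y| ≤ |tf a y| + |tf b y|) : W M c ≤ W M a + W M b := by
  unfold W
  rw [← integral_add (W_int ha M) (W_int hb M)]
  refine integral_mono (W_int hc M) ((W_int ha M).add (W_int hb M)) fun y => ?_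
  have h1 := mul_le_mul_of_nonneg_right (h y)
    (pow_nonneg (by have := abs_nonneg y; linarith : (0 : ℝ) ≤ 1 + |y|) M)
  rw [add_mul] at h1
  exact h1

theorem W_add_le (ha : IsAmp a) (hb : IsAmp b) (M : ℕ) : W M (a + b) ≤ W M a + W M b := by
  refine R4_le ha hb (amp_add ha hb) M fun y => ?_
  rw [tf_add ha hb]
  exact abs_add_le _ _

/-- triangle inequality -/
theorem W_tri {c : ℝ → ℂ} (ha : IsAmp a) (hb : IsAmp b) (hc : IsAmp c) (M : ℕ) :
    W M (a - c) ≤ W M (a - b) + W M (b - c) := by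
  refine R4_le (amp_sub ha hb) (amp_sub hb hc) (amp_sub ha hc) M fun y => ?_
  rw [tf_sub ha hc, tf_sub ha hb, tf_sub hb hc]
  exact abs_sub_le _ _ _

theorem W_le_add (ha : IsAmp a) (hb : IsAmp b) (M : ℕ) : W M b ≤ W M a + W M (a - b) := by
  refine R4_le ha (amp_sub ha hb) hb M fun y => ?_
  rw [tf_sub ha hb]
  have h1 : tf b y = tf a y - (tf a y - tf b y) := by ring
  calc |tf b y| = |tf a y - (tf a y - tf b y)| := by rw [← h1]
    _ ≤ |tf a y| + |tf a y - tf b y| := abs_sub _ _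

end FB23
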