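import Pool.Agent.LibFB23.R3
import Pool.Agent.LibFB23.R4

/-!
# Row R5: continuity under scaling

`tf (sca s a - sca s' a) y = tf a (s y) - tf a (s' y)`, and `tf a` is differentiable with a derivative
of rapid decay; the mean value inequality on the segment from `s' y` to `s y`.
-/

open MeasureTheory Set Filter Topology
open scoped ContDiff

namespace FB23

open FG33 GWin Mes

private theorem r5_der {a : ℝ → ℂ} (ha : IsAmp a) (N : ℕ) : ∃ (B : ℝ) (g : ℝ → ℝ), 0 < B ∧
    (∀ y, HasDerivAt (tf a) (g y) y) ∧ ∀ y, |g y| ≤ B / (1 + |y|) ^ N := by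
  set S := FourierTransform.fourier (ha.supp.toSchwartzMap ha.smooth) with hS
  set C := 2 ^ N * (Finset.Iic (N, 1)).sup (fun m : ℕ × ℕ => SchwartzMap.seminorm ℝ m.1 m.2) S
    with hC
  have h1 : ∀ x : ℝ, (1 + ‖x‖) ^ N * ‖deriv S x‖ ≤ C := by
    intro x
    have := SchwartzMap.one_add_le_sup_seminorm_apply (𝕜 := ℝ) (m := (N, 1)) (k := N) (n := 1)
      le_rfl le_rfl S x
    rw [norm_iteratedFDeriv_eq_norm_iteratedDeriv, iteratedDeriv_one] at this
    simpa using this
  have hC0 : 0 ≤ C := le_trans (by positivity) (h1 0)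
  have hpi := Real.pi_gt_three
  have hd : ∀ y : ℝ, HasDerivAt (fun y : ℝ => S (-(y / (2 * Real.pi))))
      ((-(1 / (2 * Real.pi))) • deriv S (-(y / (2 * Real.pi)))) y := by
    intro y
    have h2 : HasDerivAt (S : ℝ → ℂ) (deriv S (-(y / (2 * Real.pi)))) (-(y / (2 * Real.pi))) :=
      (S.differentiableAt).hasDerivAt
    have h3 : HasDerivAt (fun y : ℝ => -(y / (2 * Real.pi))) (-(1 / (2 * Real.pi))) y :=
      ((hasDerivAt_id y).div_const _).neg
    exact h2.scomp y h3
  refine ⟨(2 * Real.pi) ^ N * (C + 1),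
    fun y => ((-(1 / (2 * Real.pi))) • deriv S (-(y / (2 * Real.pi)))).re, by positivity,
    fun y => ?_, fun y => ?_⟩
  · have h2 : tf a = fun y : ℝ => (S (-(y / (2 * Real.pi)))).re := by
      funext y
      exact tf_eq_fourier ha y
    rw [h2]
    exact (Complex.reCLM.hasFDerivAt.comp_hasDerivAt y (hd y))
  · have h2 := h1 (-(y / (2 * Real.pi)))
    rw [le_div_iff₀ (by positivity)]
    have h3 : |((-(1 / (2 * Real.pi))) • deriv S (-(y / (2 * Real.pi)))).re| ≤
        ‖deriv S (-(y / (2 * Real.pi)))‖ := by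
      refine (Complex.abs_re_le_norm _).trans ?_
      rw [norm_smul, norm_neg, Real.norm_eq_abs, abs_of_pos (by positivity)]
      have h5 : 1 / (2 * Real.pi) ≤ 1 := by
        rw [div_le_one (by positivity)]
        linarith
      exact mul_le_of_le_one_left (norm_nonneg _) h5
    have h4 : 1 + |y| ≤ (2 * Real.pi) * (1 + ‖-(y / (2 * Real.pi))‖) := by
      rw [norm_neg, norm_div, Real.norm_eq_abs, Real.norm_eq_abs, abs_of_pos (by positivity :
        0 < 2 * Real.pi)]
      have h5 : 2 * Real.pi * (1 + |y| / (2 * Real.pi)) = 2 * Real.pi + |y| := by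
        field_simp
      rw [h5]
      linarith
    calc |((-(1 / (2 * Real.pi))) • deriv S (-(y / (2 * Real.pi)))).re| * (1 + |y|) ^ N
        ≤ ‖deriv S (-(y / (2 * Real.pi)))‖ *
          ((2 * Real.pi) * (1 + ‖-(y / (2 * Real.pi))‖)) ^ N := by gcongr
      _ = (2 * Real.pi) ^ N *
          ((1 + ‖-(y / (2 * Real.pi))‖) ^ N * ‖deriv S (-(y / (2 * Real.pi)))‖) := by
          rw [mul_pow]
          ring
      _ ≤ (2 * Real.pi) ^ N * C := by gcongr
      _ ≤ _ := by nlinarith [show (0:ℝ) < (2 * Real.pi) ^ N by positivity]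

theorem sca_lip {a : ℝ → ℂ} (ha : IsAmp a) (M : ℕ) : ∃ C : ℝ, 0 ≤ C ∧ ∀ s s' : ℝ, 1 ≤ s → s ≤ 2 →
    1 ≤ s' → s' ≤ 2 → W M (sca s a - sca s' a) ≤ C * |s - s'| := by
  obtain ⟨B, g, hB, hg, hgb⟩ := r5_der ha (M + 3)
  have hi : Integrable fun x : ℝ => (1 + ‖x‖) ^ (-(2 : ℝ)) :=
    integrable_one_add_norm (μ := (volume : Measure ℝ)) (by simp)
  have hi0 : 0 ≤ ∫ x : ℝ, (1 + ‖x‖) ^ (-(2 : ℝ)) := integral_nonneg fun x => by positivity
  refine ⟨B * ∫ x : ℝ, (1 + ‖x‖) ^ (-(2 : ℝ)), mul_nonneg hB.le hi0, ?_⟩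
  intro s s' h1 h2 h1' h2'
  have hs : 0 < s := by linarith
  have hs' : 0 < s' := by linarith
  have hA := sca_amp ha hs
  have hA' := sca_amp ha hs'
  have key : ∀ y : ℝ, |tf (sca s a - sca s' a) y| * (1 + |y|) ^ M ≤
      |s - s'| * (B * (1 + ‖y‖) ^ (-(2 : ℝ))) := by
    intro y
    rw [tf_sub hA hA', sca_tf ha hs, sca_tf ha hs']
    have h3 : |tf a (s * y) - tf a (s' * y)| ≤ B / (1 + |y|) ^ (M + 3) * |s * y - s' * y| := by
      have h4 := Convex.norm_image_sub_le_of_norm_hasDerivWithin_le (f := tf a) (f' := g)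
        (C := B / (1 + |y|) ^ (M + 3)) (s := segment ℝ (s' * y) (s * y))
        (x := s' * y) (y := s * y) (fun x _ => (hg x).hasDerivWithinAt) (fun x hx => ?_)
        (convex_segment _ _) (left_mem_segment _ _ _) (right_mem_segment _ _ _)
      · simpa only [Real.norm_eq_abs] using h4
      · rw [Real.norm_eq_abs]
        refine (hgb x).trans ?_
        obtain ⟨p, q, hp, hq, hpq, rfl⟩ := hx
        have h5 : p • (s' * y) + q • (s * y) = (p * s' + q * s) * y := by
          simp only [smul_eq_mul]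
          ring
        have h6 : 1 ≤ p * s' + q * s := by
          have e1 := mul_le_mul_of_nonneg_left h1' hp
          have e2 := mul_le_mul_of_nonneg_left h1 hq
          linarith
        have h7 : |y| ≤ |p • (s' * y) + q • (s * y)| := by
          rw [h5, abs_mul, abs_of_pos (show 0 < p * s' + q * s by linarith)]
          exact le_mul_of_one_le_left (abs_nonneg y) h6
        have h8 := abs_nonneg y
        gcongr
    have h4 : |s * y - s' * y| = |s - s'| * |y| := by
      rw [← sub_mul, abs_mul]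
    rw [h4] at h3
    have h0 : 0 < 1 + |y| := by have := abs_nonneg y; linarith
    have h5 : (1 + ‖y‖) ^ (-(2 : ℝ)) = 1 / (1 + |y|) ^ 2 := by
      rw [Real.rpow_neg (by positivity), Real.norm_eq_abs]
      norm_cast
      rw [one_div]
    rw [h5]
    calc |tf a (s * y) - tf a (s' * y)| * (1 + |y|) ^ M
        ≤ (B / (1 + |y|) ^ (M + 3) * (|s - s'| * |y|)) * (1 + |y|) ^ M :=
          mul_le_mul_of_nonneg_right h3 (by positivity)
      _ ≤ (B / (1 + |y|) ^ (M + 3) * (|s - s'| * (1 + |y|))) * (1 + |y|) ^ M := by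
          gcongr
          linarith
      _ = |s - s'| * (B * (1 / (1 + |y|) ^ 2)) := by
          rw [pow_add]
          field_simp
  unfold W
  calc ∫ y, |tf (sca s a - sca s' a) y| * (1 + |y|) ^ M
      ≤ ∫ y : ℝ, |s - s'| * (B * (1 + ‖y‖) ^ (-(2 : ℝ))) :=
        integral_mono (W_int (amp_sub hA hA') M) ((hi.const_mul B).const_mul _) key
    _ = B * (∫ x : ℝ, (1 + ‖x‖) ^ (-(2 : ℝ))) * |s - s'| := by
        rw [integral_const_mul, integral_const_mul]
        ring

end FB23
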